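import Mathlib

/-!
# PWQ QUO: a bound for an analytic quotient of two bounded functions

Proof. Translate to `c = 0`, `R' = (rho + R)/2`. Canonical decomposition of `g` on the closed ball of
radius `R'`: an analytic `G` without zeros in the open ball, `|G| = |g|` on the circle,
`|g 0| <= |G 0|`. `|F G| <= M` on the circle, hence inside. `G = G 0 * exp psi`, `Re psi <= 2 log M`,
`psi 0 = 0`, so `|psi| <= 4 log M rho/(R' - rho)` (Borel-Caratheodory). Hence
`|F w| <= M/|G w| <= M^(2 + 8 rho/(R - rho))`.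
-/

set_option autoImplicit false

open Complex Finset Filter Topology MeasureTheory

namespace Pool.PWQ

theorem exists_zero_free {R : ℝ} (hR : 0 < R) {g : ℂ → ℂ}
    (hg : AnalyticOnNhd ℂ g (Metric.closedBall 0 R)) (hg0 : g 0 ≠ 0) :
    ∃ G : ℂ → ℂ, AnalyticOnNhd ℂ G (Metric.closedBall 0 R) ∧
      (∀ z ∈ Metric.ball (0 : ℂ) R, G z ≠ 0) ∧
      (∀ z ∈ Metric.sphere (0 : ℂ) R, ‖G z‖ = ‖g z‖) ∧ ‖g 0‖ ≤ ‖G 0‖ := by
  have h0 : (0 : ℂ) ∈ Metric.closedBall (0 : ℂ) R := by simp [hR.le]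
  have h0b : (0 : ℂ) ∈ Metric.ball (0 : ℂ) R := by simp [hR]
  have hgm : MeromorphicOn g (Metric.closedBall 0 R) := hg.meromorphicOn
  have hord0 : meromorphicOrderAt g 0 = 0 :=
    ((hg 0 h0).meromorphicNFAt.meromorphicOrderAt_eq_zero_iff).2 hg0
  have hord : ∀ u : Metric.closedBall (0 : ℂ) R, meromorphicOrderAt g u ≠ ⊤ := by
    rw [← hgm.exists_meromorphicOrderAt_ne_top_iff_forall (Metric.isConnected_closedBall hR.le)]
    exact ⟨⟨0, h0⟩, by simp [hord0]⟩
  obtain ⟨G, D⟩ := hgm.exists_canonicalDecomp hord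
  have hGdiv : 0 ≤ MeromorphicOn.divisor G (Metric.closedBall 0 R) := by
    intro x
    change (0 : ℤ) ≤ MeromorphicOn.divisor G (Metric.closedBall 0 R) x
    rw [D.divisor_eq_divisor hR]
    exact MeromorphicOn.AnalyticOnNhd.divisor_nonneg (hg.mono Metric.sphere_subset_closedBall) x
  have hGan : AnalyticOnNhd ℂ G (Metric.closedBall 0 R) :=
    (D.meromorphicNFOn.divisor_nonneg_iff_analyticOnNhd).1 hGdiv
  have hfin : (MeromorphicOn.divisor g (Metric.ball 0 R)).support.Finite :=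
    hgm.divisor_ball_support_finite
  set n : ℂ → ℤ := fun u => MeromorphicOn.divisor g (Metric.ball 0 R) u with hn
  have hn0 : ∀ u, 0 ≤ n u := 
    MeromorphicOn.AnalyticOnNhd.divisor_nonneg (hg.mono Metric.ball_subset_closedBall)
  have hnb : ∀ u, n u ≠ 0 → u ∈ Metric.ball (0 : ℂ) R := fun u hu =>
    (MeromorphicOn.divisor g (Metric.ball 0 R)).supportWithinDomain hu
  set P : ℂ → ℂ := ∏ᶠ u, (canonicalFactor R u) ^ (-n u) with hP
  have hPprod : P = ∏ u ∈ hfin.toFinset, (canonicalFactor R u) ^ (-n u) := by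
    rw [hP]
    apply finprod_eq_prod_of_mulSupport_subset
    intro u hu
    rw [Set.Finite.coe_toFinset]
    intro h
    apply hu
    have h' : n u = 0 := h
    simp [h']
  have hPan : ∀ x ∈ Metric.closedBall (0 : ℂ) R, n x = 0 → AnalyticAt ℂ P x := by
    intro x hx hnx
    rw [hPprod]
    apply Finset.analyticAt_prod
    intro u hu
    have hu1 : n u ≠ 0 := by
      rw [Set.Finite.mem_toFinset] at hu
      exact hu
    have hu2 := hnb u hu1
    have hux : x ≠ u := by
      rintro rfl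
      exact hu1 hnx
    exact (analyticOnNhd_canonicalFactor R u x hux).zpow (canonicalFactor_ne_zero hu2 hx hux)
  have hval : ∀ x ∈ Metric.closedBall (0 : ℂ) R, n x = 0 → g x = P x * G x := by
    intro x hx hnx
    have hperf : Preperfect (Metric.closedBall (0 : ℂ) R) := by
      rw [← closure_ball 0 hR.ne']
      exact Metric.isOpen_ball.perfect_closure.2
    have e1 : g =ᶠ[𝓝[≠] x] P • G := by
      refine MeromorphicAt.eventuallyEq_nhdsNE_of_eventuallyEq_codiscreteWithin_preperfect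
        (U := Metric.closedBall 0 R) (hgm x hx)
        ((hPan x hx hnx).meromorphicAt.smul (hGan x hx).meromorphicAt) hx hperf ?_
      exact D.eventuallyEq
    have c1 : ContinuousAt g x := (hg x hx).continuousAt
    have c2 : ContinuousAt (P • G) x := (hPan x hx hnx).continuousAt.smul (hGan x hx).continuousAt
    have e2 : g =ᶠ[𝓝 x] P • G :=
      (c1.eventuallyEq_nhds_iff_eventuallyEq_nhdsNE c2).1 e1
    have := e2.self_of_nhds
    simpa using this
  refine ⟨G, hGan, D.ne_zero, ?_, ?_⟩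
  · intro x hx
    have hx' : x ∈ Metric.closedBall (0 : ℂ) R := Metric.sphere_subset_closedBall hx
    have hnx : n x = 0 := by
      by_contra h
      have h1 := hnb x h
      rw [mem_ball_zero_iff] at h1
      rw [mem_sphere_zero_iff_norm] at hx
      linarith
    rw [hval x hx' hnx, norm_mul, hPprod, Finset.prod_apply, norm_prod, Finset.prod_eq_one,
      one_mul]
    intro u hu
    have hu1 : n u ≠ 0 := by
      rw [Set.Finite.mem_toFinset] at hu
      exact hu
    rw [Pi.pow_apply, norm_zpow, norm_canonicalFactor_eval_circle_eq_one (hnb u hu1) hx, one_zpow]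
  · have hn00 : n 0 = 0 := by
      simp only [hn]
      rw [MeromorphicOn.divisor_apply (hgm.mono_set Metric.ball_subset_closedBall) h0b, hord0]
      rfl
    rw [hval 0 h0 hn00, norm_mul, hPprod, Finset.prod_apply, norm_prod]
    apply mul_le_of_le_one_left (norm_nonneg _)
    apply Finset.prod_le_one
    · intro u _
      exact norm_nonneg _
    · intro u hu
      have hu1 : n u ≠ 0 := by
        rw [Set.Finite.mem_toFinset] at hu
        exact hu
      have hu2 := hnb u hu1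
      rw [mem_ball_zero_iff] at hu2
      have hu0 : u ≠ 0 := by
        rintro rfl
        exact hu1 hn00
      have hu3 : 0 < ‖u‖ := norm_pos_iff.2 hu0
      rw [Pi.pow_apply, norm_zpow, zpow_neg]
      apply inv_le_one_of_one_le₀
      apply one_le_zpow₀ _ (hn0 u)
      rw [canonicalFactor_apply]
      simp only [mul_zero, sub_zero, zero_sub, mul_neg, norm_div, norm_pow, norm_neg, norm_mul,
        Complex.norm_real, Real.norm_eq_abs, abs_of_pos hR]
      rw [one_le_div (by positivity)]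
      nlinarith

theorem exists_log {R : ℝ} (hR : 0 < R) {G : ℂ → ℂ}
    (hG : DifferentiableOn ℂ G (Metric.ball 0 R)) (hne : ∀ z ∈ Metric.ball (0 : ℂ) R, G z ≠ 0) :
    ∃ ψ : ℂ → ℂ, DifferentiableOn ℂ ψ (Metric.ball 0 R) ∧ ψ 0 = 0 ∧
      ∀ z ∈ Metric.ball (0 : ℂ) R, G z = G 0 * cexp (ψ z) := by
  have h0b : (0 : ℂ) ∈ Metric.ball (0 : ℂ) R := by simp [hR]
  have hq : DifferentiableOn ℂ (fun z => deriv G z / G z) (Metric.ball 0 R) :=
    (hG.deriv Metric.isOpen_ball).div hG hne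
  obtain ⟨ψ, hψ0, hψ⟩ := hq.isExactOn_ball.with_val_at 0 0
  refine ⟨ψ, fun z hz => (hψ z hz).differentiableAt.differentiableWithinAt, hψ0, ?_⟩
  have hd : ∀ z ∈ Metric.ball (0 : ℂ) R, HasDerivAt (fun z => G z * cexp (-ψ z)) 0 z := by
    intro z hz
    have h1 := (hG.differentiableAt (Metric.isOpen_ball.mem_nhds hz)).hasDerivAt
    have h3 := hne z hz
    have h5 : HasDerivAt (fun w => cexp (-ψ w)) (cexp (-ψ z) * -(deriv G z / G z)) z :=
      (hψ z hz).fun_neg.cexp
    have h2 : HasDerivAt (fun w => G w * cexp (-ψ w))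
        (deriv G z * cexp (-ψ z) + G z * (cexp (-ψ z) * -(deriv G z / G z))) z := h1.fun_mul h5
    have h4 : deriv G z * cexp (-ψ z) + G z * (cexp (-ψ z) * -(deriv G z / G z)) = 0 := by
      field_simp
      ring
    rw [h4] at h2
    exact h2
  intro z hz
  have hconst := (convex_ball (0 : ℂ) R).is_const_of_fderivWithin_eq_zero (𝕜 := ℂ)
    (f := fun z => G z * cexp (-ψ z))
    (fun z hz => (hd z hz).differentiableAt.differentiableWithinAt) (by
      intro z hz
      rw [fderivWithin_of_isOpen Metric.isOpen_ball hz, (hd z hz).hasFDerivAt.fderiv]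
      ext
      simp) hz h0b
  simp only [hψ0, neg_zero, Complex.exp_zero, mul_one] at hconst
  rw [← hconst, mul_assoc, ← Complex.exp_add, neg_add_cancel, Complex.exp_zero, mul_one]

theorem log_bound {R ρ M : ℝ} (hρ : 0 ≤ ρ) (hR : ρ < R) (hM : 1 ≤ M) {G : ℂ → ℂ}
    (hG : DifferentiableOn ℂ G (Metric.ball 0 R)) (hne : ∀ z ∈ Metric.ball (0 : ℂ) R, G z ≠ 0)
    (hGM : ∀ z ∈ Metric.ball (0 : ℂ) R, ‖G z‖ ≤ M) (h0 : 1 / M ≤ ‖G 0‖) {z : ℂ} (hz : ‖z‖ ≤ ρ) :
    M ^ (-(1 + 4 * ρ / (R - ρ))) ≤ ‖G z‖ := by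
  have hR0 : 0 < R := lt_of_le_of_lt hρ hR
  have hM0 : 0 < M := by linarith
  have hlM : 0 ≤ Real.log M := Real.log_nonneg hM
  obtain ⟨ψ, hψd, hψ0, hψ⟩ := exists_log hR0 hG hne
  have h0b : (0 : ℂ) ∈ Metric.ball (0 : ℂ) R := by simp [hR0]
  have hzb : z ∈ Metric.ball (0 : ℂ) R := by
    rw [mem_ball_zero_iff]; linarith
  have hG0 : 0 < ‖G 0‖ := norm_pos_iff.2 (hne 0 h0b)
  have hre : ∀ w ∈ Metric.ball (0 : ℂ) R, (ψ w).re ≤ 2 * Real.log M := by
    intro w hw
    have h1 := hGM w hw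
    rw [hψ w hw, norm_mul, Complex.norm_exp] at h1
    have h2 : 1 / M * Real.exp (ψ w).re ≤ M :=
      (mul_le_mul_of_nonneg_right h0 (Real.exp_pos _).le).trans h1
    have h3 : Real.exp (ψ w).re ≤ M * M := by
      rw [one_div, inv_mul_le_iff₀ hM0] at h2
      exact h2
    have h4 := (Real.le_log_iff_exp_le (by positivity)).2 h3
    rw [Real.log_mul hM0.ne' hM0.ne'] at h4
    linarith
  have hbc : ‖ψ z‖ ≤ 4 * ρ / (R - ρ) * Real.log M := by
    have hden : 0 < R - ρ := by linarith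
    have hdz : 0 < R - ‖z‖ := by linarith
    apply le_of_forall_pos_le_add
    intro ε hε
    set δ : ℝ := ε * (R - ρ) / (2 * (ρ + 1)) with hδ
    have hδ0 : 0 < δ := by positivity
    have h1 := Complex.borelCaratheodory_zero (M := 2 * Real.log M + δ) (by linarith) hψd (by
      intro w hw
      simp only [Set.mem_ofPred_eq]
      have := hre w hw
      linarith) hR0 hzb hψ0
    refine h1.trans ?_
    have h2 : 2 * (2 * Real.log M + δ) * ‖z‖ / (R - ‖z‖) ≤
        2 * (2 * Real.log M + δ) * ρ / (R - ρ) := by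
      apply div_le_div₀ (by positivity) _ hden (by linarith)
      apply mul_le_mul_of_nonneg_left hz (by positivity)
    refine h2.trans ?_
    have h3 : 2 * (2 * Real.log M + δ) * ρ / (R - ρ) =
        4 * ρ / (R - ρ) * Real.log M + 2 * δ * ρ / (R - ρ) := by
      field_simp
      ring
    rw [h3]
    have h4 : 2 * δ * ρ / (R - ρ) ≤ ε := by
      rw [div_le_iff₀ hden, hδ]
      have h5 : 2 * (ε * (R - ρ) / (2 * (ρ + 1))) * ρ = ε * (R - ρ) * (ρ / (ρ + 1)) := by
        field_simp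
      rw [h5]
      have h6 : ρ / (ρ + 1) ≤ 1 := by
        rw [div_le_one (by linarith)]
        linarith
      have h7 : 0 ≤ ε * (R - ρ) := by positivity
      nlinarith
    linarith
  have hre2 : -(4 * ρ / (R - ρ) * Real.log M) ≤ (ψ z).re := by
    have h1 := Complex.abs_re_le_norm (ψ z)
    have h2 := abs_le.1 (h1.trans hbc)
    exact h2.1
  rw [hψ z hzb, norm_mul, Complex.norm_exp]
  have h1 : M ^ (-(1 + 4 * ρ / (R - ρ))) =
      1 / M * Real.exp (-(4 * ρ / (R - ρ) * Real.log M)) := by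
    rw [neg_add, Real.rpow_add hM0, Real.rpow_neg_one, one_div, Real.rpow_def_of_pos hM0]
    ring_nf
  rw [h1]
  apply mul_le_mul h0 (Real.exp_le_exp.2 hre2) (Real.exp_pos _).le hG0.le

theorem quotient_bound0 {R ρ M : ℝ} (hρ : 0 ≤ ρ) (hR : ρ < R) (hM : 1 ≤ M)
    {f g F : ℂ → ℂ} (hF : DifferentiableOn ℂ F (Metric.ball 0 R))
    (hg : DifferentiableOn ℂ g (Metric.ball 0 R))
    (hfg : ∀ z ∈ Metric.ball (0 : ℂ) R, F z * g z = f z)
    (hfM : ∀ z ∈ Metric.ball (0 : ℂ) R, ‖f z‖ ≤ M) (hgM : ∀ z ∈ Metric.ball (0 : ℂ) R, ‖g z‖ ≤ M)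
    (hgc : 1 / M ≤ ‖g 0‖) {z : ℂ} (hz : ‖z‖ ≤ ρ) :
    ‖F z‖ ≤ M ^ (8 * R / (R - ρ)) := by
  have hM0 : 0 < M := by linarith
  set R' : ℝ := (ρ + R) / 2 with hR'
  have h1 : ρ < R' := by rw [hR']; linarith
  have h2 : R' < R := by rw [hR']; linarith
  have h3 : 0 < R' := by linarith
  have hsub : Metric.closedBall (0 : ℂ) R' ⊆ Metric.ball 0 R := Metric.closedBall_subset_ball h2
  have hgan : AnalyticOnNhd ℂ g (Metric.closedBall 0 R') :=
    fun x hx => (hg.analyticOnNhd Metric.isOpen_ball) x (hsub hx)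
  have hg0 : g 0 ≠ 0 := by
    intro h
    rw [h, norm_zero] at hgc
    have : 0 < 1 / M := by positivity
    linarith
  obtain ⟨G, hGan, hGne, hGs, hG0⟩ := exists_zero_free h3 hgan hg0
  have hGcl : DiffContOnCl ℂ G (Metric.ball 0 R') := by
    refine ⟨fun x hx => (hGan x (Metric.ball_subset_closedBall hx)).differentiableAt.differentiableWithinAt, ?_⟩
    rw [closure_ball 0 h3.ne']
    exact fun x hx => (hGan x hx).continuousAt.continuousWithinAt
  have hFcl : DiffContOnCl ℂ F (Metric.ball 0 R') := by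
    refine ⟨hF.mono (Metric.ball_subset_closedBall.trans hsub), ?_⟩
    rw [closure_ball 0 h3.ne']
    exact hF.continuousOn.mono hsub
  have hfr : ∀ x ∈ frontier (Metric.ball (0 : ℂ) R'), x ∈ Metric.sphere (0 : ℂ) R' := by
    intro x hx
    rwa [frontier_ball 0 h3.ne'] at hx
  have hGM : ∀ x ∈ Metric.ball (0 : ℂ) R', ‖G x‖ ≤ M := by
    intro x hx
    refine Complex.norm_le_of_forall_mem_frontier_norm_le Metric.isBounded_ball hGcl ?_
      (subset_closure hx)
    intro y hy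
    rw [hGs y (hfr y hy)]
    exact hgM y (hsub (Metric.sphere_subset_closedBall (hfr y hy)))
  have hFGM : ∀ x ∈ Metric.ball (0 : ℂ) R', ‖F x * G x‖ ≤ M := by
    intro x hx
    have hcl : DiffContOnCl ℂ (fun y => F y * G y) (Metric.ball 0 R') := hFcl.smul hGcl
    refine Complex.norm_le_of_forall_mem_frontier_norm_le Metric.isBounded_ball hcl ?_
      (subset_closure hx)
    intro y hy
    have hyb := hsub (Metric.sphere_subset_closedBall (hfr y hy))
    rw [norm_mul, hGs y (hfr y hy), ← norm_mul, hfg y hyb]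
    exact hfM y hyb
  have hlow := log_bound hρ h1 hM hGcl.differentiableOn hGne hGM (hgc.trans hG0) hz
  have hzb : z ∈ Metric.ball (0 : ℂ) R' := by
    rw [mem_ball_zero_iff]; linarith
  have hup := hFGM z hzb
  rw [norm_mul] at hup
  set e : ℝ := 1 + 4 * ρ / (R' - ρ) with he
  have hpos : 0 < M ^ (-e) := Real.rpow_pos_of_pos hM0 _
  have h5 : ‖F z‖ * M ^ (-e) ≤ M :=
    (mul_le_mul_of_nonneg_left hlow (norm_nonneg _)).trans hup
  have h6 : ‖F z‖ ≤ M ^ (1 + e) := by
    rw [Real.rpow_add hM0, Real.rpow_one]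
    rw [Real.rpow_neg hM0.le, mul_inv_le_iff₀ (Real.rpow_pos_of_pos hM0 _)] at h5
    exact h5
  refine h6.trans (Real.rpow_le_rpow_of_exponent_le hM ?_)
  have hden : 0 < R - ρ := by linarith
  have h7 : R' - ρ = (R - ρ) / 2 := by rw [hR']; ring
  rw [he, h7, le_div_iff₀ hden]
  have h8 : (1 + (1 + 4 * ρ / ((R - ρ) / 2))) * (R - ρ) = 2 * (R - ρ) + 8 * ρ := by
    field_simp
    ring
  rw [h8]
  linarith

theorem quotient_bound {c : ℂ} {R ρ M : ℝ} (hρ : 0 ≤ ρ) (hR : ρ < R) (hM : 1 ≤ M)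
    {f g F : ℂ → ℂ} (hF : DifferentiableOn ℂ F (Metric.ball c R))
    (hg : DifferentiableOn ℂ g (Metric.ball c R))
    (hfg : ∀ z ∈ Metric.ball c R, F z * g z = f z)
    (hfM : ∀ z ∈ Metric.ball c R, ‖f z‖ ≤ M) (hgM : ∀ z ∈ Metric.ball c R, ‖g z‖ ≤ M)
    (hgc : 1 / M ≤ ‖g c‖) {z : ℂ} (hz : ‖z - c‖ ≤ ρ) :
    ‖F z‖ ≤ M ^ (8 * R / (R - ρ)) := by
  have hmap : ∀ x ∈ Metric.ball (0 : ℂ) R, x + c ∈ Metric.ball c R := by
    intro x hx
    rw [mem_ball_zero_iff] at hx
    rw [mem_ball_iff_norm, add_sub_cancel_right]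
    exact hx
  have hd : DifferentiableOn ℂ (fun x : ℂ => x + c) (Metric.ball 0 R) := by fun_prop
  have key := quotient_bound0 hρ hR hM (f := fun x => f (x + c)) (g := fun x => g (x + c))
    (F := fun x => F (x + c)) (hF.comp hd hmap) (hg.comp hd hmap)
    (fun x hx => hfg _ (hmap x hx)) (fun x hx => hfM _ (hmap x hx))
    (fun x hx => hgM _ (hmap x hx)) (by simpa using hgc) hz
  simpa using key

end Pool.PWQ
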