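import Pool.Agent.Helper76.PWF.Crit
import Pool.Agent.Helper76.PWF.Unf
import Pool.Agent.Helper76.PWQ.Quo

/-!
# PWQ KB: the condition on the zeros of `zeta` gives bounds for the means of `E` uniform in `s`
-/

set_option autoImplicit false

open Complex Finset Filter Topology MeasureTheory

namespace Pool.PWQ

open Pool.OMG Pool.PWF

/-- the bounds for `Z` -/
theorem z_upper {δ : ℝ} (hδ : 0 < δ) : ∃ C : ℝ, 1 ≤ C ∧ ∀ (c : ℝ) (w : ℂ), 1 ≤ c → c ≤ 6 →
    δ ≤ w.re → ‖riemannZeta₁ (c * w)‖ ≤ C * (1 + ‖w‖) ^ 2 := by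
  obtain ⟨C, hC0, hC⟩ := zub hδ
  refine ⟨1 + 36 * C, by linarith, fun c w hc1 hc6 hw => ?_⟩
  set N : ℝ := 1 + ‖w‖ with hN
  have hN1 : 1 ≤ N := by rw [hN]; linarith [norm_nonneg w]
  have h1 := hC (c * w) (by
    have : ((c : ℂ) * w).re = c * w.re := by simp
    rw [this]
    nlinarith)
  refine h1.trans ?_
  have h2 : ‖(c : ℂ) * w‖ ≤ 6 * N := by
    rw [norm_mul, Complex.norm_real, Real.norm_of_nonneg (by linarith)]
    nlinarith [norm_nonneg w]
  have h3 : ‖(c : ℂ) * w - 1‖ ≤ 6 * N := by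
    refine (norm_sub_le _ _).trans ?_
    rw [norm_mul, Complex.norm_real, Real.norm_of_nonneg (by linarith), norm_one]
    nlinarith [norm_nonneg w]
  have h4 : ‖(c : ℂ) * w - 1‖ * ‖(c : ℂ) * w‖ ≤ (6 * N) * (6 * N) :=
    mul_le_mul h3 h2 (norm_nonneg _) (by positivity)
  nlinarith

theorem nn_upper {δ : ℝ} (hδ : 0 < δ) : ∃ C : ℝ, 1 ≤ C ∧ ∀ w : ℂ, δ ≤ w.re →
    ‖riemannZeta₁ (6 * w)‖ ≤ C * (1 + ‖w‖) ^ 5 ∧ ‖Nn w‖ ≤ C * (1 + ‖w‖) ^ 5 ∧
      ‖riemannZeta₁ (2 * w) * riemannZeta₁ (3 * w)‖ ≤ C * (1 + ‖w‖) ^ 4 := by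
  obtain ⟨C, hC1, hC⟩ := z_upper hδ
  refine ⟨6 * C ^ 2, by nlinarith, fun w hw => ?_⟩
  set N : ℝ := 1 + ‖w‖ with hN
  have hN1 : 1 ≤ N := by rw [hN]; linarith [norm_nonneg w]
  have h2 := hC 2 w (by norm_num) (by norm_num) hw
  have h3 := hC 3 w (by norm_num) (by norm_num) hw
  have h6 := hC 6 w (by norm_num) le_rfl hw
  push_cast at h2 h3 h6
  have h25 : N ^ 2 ≤ N ^ 5 := pow_le_pow_right₀ hN1 (by norm_num)
  have h45 : N ^ 4 ≤ N ^ 5 := pow_le_pow_right₀ hN1 (by norm_num)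
  have h23 : ‖riemannZeta₁ (2 * w) * riemannZeta₁ (3 * w)‖ ≤ C ^ 2 * N ^ 4 := by
    rw [norm_mul]
    calc ‖riemannZeta₁ (2 * w)‖ * ‖riemannZeta₁ (3 * w)‖ ≤ (C * N ^ 2) * (C * N ^ 2) :=
          mul_le_mul h2 h3 (norm_nonneg _) (by positivity)
      _ = _ := by ring
  have hC2 : C ≤ 6 * C ^ 2 := by nlinarith
  refine ⟨?_, ?_, ?_⟩
  · refine h6.trans ?_
    exact mul_le_mul hC2 h25 (by positivity) (by positivity)
  · unfold Nn
    rw [norm_mul]
    have h7 : ‖6 * w - 1‖ ≤ 6 * N := by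
      refine (norm_sub_le _ _).trans ?_
      rw [norm_mul, norm_one]
      have : ‖(6 : ℂ)‖ = 6 := by norm_num
      rw [this, hN]
      linarith
    calc ‖riemannZeta₁ (2 * w) * riemannZeta₁ (3 * w)‖ * ‖6 * w - 1‖ ≤
        (C ^ 2 * N ^ 4) * (6 * N) := mul_le_mul h23 h7 (norm_nonneg _) (by positivity)
      _ = _ := by ring
  · refine h23.trans ?_
    have : 0 ≤ C ^ 2 * N ^ 4 := by positivity
    nlinarith

/-- the lower bound right of `1/3` -/
theorem z_lower : ∃ C : ℝ, 1 ≤ C ∧ ∀ w : ℂ, 1 / 3 ≤ w.re →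
    ‖6 * w - 1‖ ≤ C * ‖riemannZeta₁ (6 * w)‖ := by
  obtain ⟨C, hC0, hC⟩ := zlb
  refine ⟨1 + C, by linarith, fun w hw => ?_⟩
  have hre : 2 ≤ (6 * w).re := by
    have : (6 * w).re = 6 * w.re := by simp
    rw [this]; linarith
  have h1 := hC 2 (by norm_num) le_rfl (6 * w) hre
  have hne : 6 * w ≠ 1 := by
    intro h; rw [h] at hre; norm_num at hre
  have e : riemannZeta₁ (6 * w) = (6 * w - 1) * riemannZeta (6 * w) := by
    rw [riemannZeta_eq_inv_sub_mul hne]
    have : 6 * w - 1 ≠ 0 := sub_ne_zero.mpr hne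
    field_simp
  rw [e, norm_mul]
  have h2 : 1 ≤ C * ‖riemannZeta (6 * w)‖ := by linarith
  have h3 : 0 ≤ ‖6 * w - 1‖ := norm_nonneg _
  have h4 : 0 ≤ ‖riemannZeta (6 * w)‖ := norm_nonneg _
  nlinarith [mul_nonneg h3 h4]

/-- polynomial growth of the continued quotient -/
theorem p_growth {r0 r1 : ℝ} (h0 : 0 ≤ r0) (h1 : r0 < r1) (h2 : r1 < 1 / 6) {P : ℂ → ℂ}
    (hPd : DifferentiableOn ℂ P {z : ℂ | r0 < z.re})
    (hP : ∀ z : ℂ, r0 < z.re → P z * riemannZeta₁ (6 * z) = Nn z) :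
    ∃ C A : ℝ, 1 ≤ C ∧ 0 ≤ A ∧ ∀ z : ℂ, r1 ≤ z.re → ‖P z‖ ≤ C * (1 + ‖z‖) ^ A := by
  set r' : ℝ := (r0 + r1) / 2 with hr'
  have hr'0 : 0 < r' := by rw [hr']; linarith
  have hr'1 : r' < r1 := by rw [hr']; linarith
  have hr'2 : r0 < r' := by rw [hr']; linarith
  obtain ⟨C1, hC1, hU⟩ := nn_upper hr'0
  obtain ⟨C2, hC2, hL⟩ := z_lower
  set R : ℝ := 1 / 3 - r' with hR
  set ρ : ℝ := 1 / 3 - r1 with hρ
  have hρ0 : 0 ≤ ρ := by rw [hρ]; linarith
  have hρR : ρ < R := by rw [hρ, hR]; linarith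
  set a : ℝ := 8 * R / (R - ρ) with ha
  have ha0 : 0 ≤ a := div_nonneg (by linarith) (by linarith)
  set D : ℝ := 32 * C1 + C2 with hD
  have hD1 : 1 ≤ D := by rw [hD]; linarith
  refine ⟨D ^ a + C1 * C2, 5 * a + 4, ?_, by positivity, fun z hz => ?_⟩
  · have := Real.one_le_rpow hD1 ha0
    nlinarith
  set N : ℝ := 1 + ‖z‖ with hN
  have hN1 : 1 ≤ N := by rw [hN]; linarith [norm_nonneg z]
  have hN0 : 0 < N := by linarith
  rcases le_or_gt z.re (1 / 3) with h3 | h3
  · -- the quotient bound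
    set c : ℂ := ⟨1 / 3, z.im⟩ with hc
    have hzc : ‖z - c‖ ≤ ρ := by
      have e : z - c = ((z.re - 1 / 3 : ℝ) : ℂ) := by
        apply Complex.ext <;> simp [hc]
      rw [e, Complex.norm_real, Real.norm_eq_abs, abs_of_nonpos (by linarith)]
      rw [hρ]; linarith
    have hball : ∀ w ∈ Metric.ball c R, r' ≤ w.re := by
      intro w hw
      rw [Metric.mem_ball, dist_eq_norm] at hw
      have h4 : |(w - c).re| ≤ ‖w - c‖ := Complex.abs_re_le_norm _
      have h5 := neg_abs_le (w - c).re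
      simp only [Complex.sub_re, hc] at h4 h5
      linarith
    have hNw : ∀ w ∈ Metric.ball c R, 1 + ‖w‖ ≤ 2 * N := by
      intro w hw
      rw [Metric.mem_ball, dist_eq_norm] at hw
      have h4 : ‖w‖ ≤ ‖w - c‖ + ‖c - z‖ + ‖z‖ := by
        have e : w = (w - c) + (c - z) + z := by ring
        calc ‖w‖ = ‖(w - c) + (c - z) + z‖ := by rw [← e]
          _ ≤ _ := norm_add₃_le
      rw [norm_sub_rev c z] at h4
      rw [hN]
      have := norm_nonneg z
      linarith
    have hNw5 : ∀ w ∈ Metric.ball c R, C1 * (1 + ‖w‖) ^ 5 ≤ D * N ^ 5 := by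
      intro w hw
      have h4 : (1 + ‖w‖) ^ 5 ≤ (2 * N) ^ 5 := pow_le_pow_left₀ (by positivity) (hNw w hw) 5
      have h5 : (2 * N) ^ 5 = 32 * N ^ 5 := by ring
      rw [h5] at h4
      have h6 : 0 ≤ N ^ 5 := by positivity
      calc C1 * (1 + ‖w‖) ^ 5 ≤ C1 * (32 * N ^ 5) := mul_le_mul_of_nonneg_left h4 (by linarith)
        _ = (32 * C1) * N ^ 5 := by ring
        _ ≤ D * N ^ 5 := mul_le_mul_of_nonneg_right (by rw [hD]; linarith) h6
    have hN5 : 1 ≤ N ^ 5 := one_le_pow₀ hN1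
    have hM : 1 ≤ D * N ^ 5 := by nlinarith
    have hgc : 1 / (D * N ^ 5) ≤ ‖riemannZeta₁ (6 * c)‖ := by
      have h4 := hL c (by simp [hc])
      have h5 : 1 ≤ ‖6 * c - 1‖ := by
        refine le_trans ?_ (Complex.re_le_norm _)
        simp [hc]; norm_num
      rw [div_le_iff₀ (by positivity)]
      have h6 : 0 ≤ ‖riemannZeta₁ (6 * c)‖ := norm_nonneg _
      have h7 : C2 ≤ D * N ^ 5 := by
        have : C2 ≤ D := by rw [hD]; linarith
        nlinarith
      nlinarith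
    have hsub : Metric.ball c R ⊆ {z : ℂ | r0 < z.re} := by
      intro w hw
      have := hball w hw
      show r0 < w.re
      linarith
    have hq := quotient_bound (c := c) (R := R) (ρ := ρ) (M := D * N ^ 5) hρ0 hρR hM (f := Nn)
      (g := fun z => riemannZeta₁ (6 * z)) (F := P) (hPd.mono hsub)
      (Differentiable.differentiableOn (by fun_prop)) (fun w hw => hP w (hsub hw))
      (fun w hw => ((hU w (hball w hw)).2.1).trans (hNw5 w hw))
      (fun w hw => ((hU w (hball w hw)).1).trans (hNw5 w hw)) hgc hzc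
    refine hq.trans ?_
    have e1 : (D * N ^ 5) ^ a = D ^ a * N ^ (5 * a) := by
      rw [Real.mul_rpow (by linarith) (by positivity), ← Real.rpow_natCast N 5, ← Real.rpow_mul hN0.le]
      push_cast
      rfl
    rw [← ha, e1]
    have e2 : N ^ (5 * a) ≤ N ^ (5 * a + 4) := Real.rpow_le_rpow_of_exponent_le hN1 (by linarith)
    have e3 : 0 ≤ C1 * C2 * N ^ (5 * a + 4) := by positivity
    have e4 : 0 ≤ D ^ a := by positivity
    nlinarith
  · -- right of `1/3`
    have hz3 : r' ≤ z.re := by linarith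
    obtain ⟨_, _, h5⟩ := hU z hz3
    have h6 := hL z h3.le
    have h7 := hP z (by linarith)
    have hpos : 0 < ‖riemannZeta₁ (6 * z)‖ := by
      have : riemannZeta₁ (6 * z) ≠ 0 := zf_one (by simp; linarith)
      exact norm_pos_iff.mpr this
    have h8 : ‖P z‖ * ‖riemannZeta₁ (6 * z)‖ =
        ‖riemannZeta₁ (2 * z) * riemannZeta₁ (3 * z)‖ * ‖6 * z - 1‖ := by
      rw [← norm_mul, h7]
      unfold Nn
      rw [norm_mul]
    have h9 : ‖P z‖ ≤ C1 * N ^ 4 * C2 := by
      have h10 : ‖P z‖ * ‖riemannZeta₁ (6 * z)‖ ≤ (C1 * N ^ 4 * C2) * ‖riemannZeta₁ (6 * z)‖ := by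
        rw [h8]
        calc _ ≤ (C1 * N ^ 4) * (C2 * ‖riemannZeta₁ (6 * z)‖) :=
              mul_le_mul h5 h6 (norm_nonneg _) (by positivity)
          _ = _ := by ring
      exact le_of_mul_le_mul_right h10 hpos
    refine h9.trans ?_
    have e2 : N ^ (4 : ℕ) ≤ N ^ (5 * a + 4) := by
      rw [← Real.rpow_natCast N 4]
      exact Real.rpow_le_rpow_of_exponent_le hN1 (by push_cast; linarith)
    have e4 : 0 ≤ D ^ a * N ^ (5 * a + 4) := by positivity
    have e5 : 0 ≤ C1 * C2 := by positivity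
    nlinarith

/-- the bound in mean, uniform in `s` -/
theorem mu {r0 r1 : ℝ} (h0 : 0 ≤ r0) (h1 : r0 < r1) (h2 : r1 < 1 / 6)
    (h : ZeroCond (6 * r0)) : ∃ C A : ℝ, 0 ≤ A ∧ ∀ (k : ℕ) (s : ℝ), 2 ≤ s →
      |s ^ (k + 1) / (k.factorial : ℝ) *
      (∫ x in Set.Ioi (1 : ℝ), E x * Real.log x ^ k * x ^ (-s - 1))| ≤
        C * s ^ A * (s / (s - r1)) ^ (k + 1) := by
  set U : Set ℂ := {z : ℂ | r0 < z.re} with hU
  have hUo : IsOpen U := isOpen_lt continuous_const Complex.continuous_re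
  have hDd : Differentiable ℂ (fun z : ℂ => riemannZeta₁ (6 * z)) := by fun_prop
  have hord : ∀ z ∈ U, analyticOrderAt (fun z => riemannZeta₁ (6 * z)) z ≤
      analyticOrderAt Nn z := by
    intro z hz
    have hz' : r0 < z.re := hz
    have hre : (6 * z).re = 6 * z.re := by simp
    rcases le_or_gt 1 (6 * z).re with h3 | h3
    · have h4 : analyticOrderAt (fun z => riemannZeta₁ (6 * z)) z = 0 := by
        rw [(hDd.analyticAt z).analyticOrderAt_eq_zero]
        exact zf_one h3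
      rw [h4]
      exact bot_le
    · rw [ord_D h3, ord_Nn h3]
      exact h (6 * z) (by rw [hre]; linarith) h3
  obtain ⟨P, hPd, hP⟩ := quot_ext (N := Nn) (D := fun z => riemannZeta₁ (6 * z)) (U := U) Nn_diff
    hDd ord_fin hord
  have hPhi : ∀ z ∈ U, riemannZeta₁ (6 * z) ≠ 0 → P z = Phi z := fun z hz hz2 => hP z hz hz2
  have hmul : ∀ z : ℂ, r0 < z.re → P z * riemannZeta₁ (6 * z) = Nn z := by
    intro z hz
    by_cases hz2 : riemannZeta₁ (6 * z) = 0
    · rw [hz2, mul_zero]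
      have h3 : analyticOrderAt (fun z => riemannZeta₁ (6 * z)) z ≠ 0 := by
        intro h4
        rw [(hDd.analyticAt z).analyticOrderAt_eq_zero] at h4
        exact h4 hz2
      have h4 : analyticOrderAt Nn z ≠ 0 := by
        intro h5
        have h6 := hord z hz
        rw [h5] at h6
        exact h3 (le_antisymm h6 bot_le)
      by_contra h5
      apply h4
      rw [(Nn_diff.analyticAt z).analyticOrderAt_eq_zero]
      exact fun h6 => h5 h6.symm
    · rw [hP z hz hz2]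
      exact div_mul_cancel₀ _ hz2
  obtain ⟨C, A, hC1, hA, hgr⟩ := p_growth h0 h1 h2 hPd hmul
  have m2 : (1 / 2 : ℂ) ∈ U := by
    show r0 < (1 / 2 : ℂ).re
    norm_num
    linarith
  have m3 : (1 / 3 : ℂ) ∈ U := by
    show r0 < (1 / 3 : ℂ).re
    norm_num
    linarith
  have p2 : P (1 / 2) = Phi (1 / 2) := hPhi _ m2 (zf_one (by norm_num))
  have p3 : P (1 / 3) = Phi (1 / 3) := hPhi _ m3 (zf_one (by norm_num))
  set K1 : ℂ → ℂ := fun z => P z / z + 2 * dslope P (1 / 2) z - 3 * dslope P (1 / 3) z with hK1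
  have hK1d : DifferentiableOn ℂ K1 U := by
    refine DifferentiableOn.sub (DifferentiableOn.add ?_ ?_) ?_
    · refine hPd.div differentiableOn_id (fun z hz h3 => ?_)
      have hz' : r0 < z.re := hz
      have h4 : z = 0 := h3
      rw [h4] at hz'
      simp at hz'
      linarith
    · exact ((Complex.differentiableOn_dslope (hUo.mem_nhds m2)).mpr hPd).const_mul 2
    · exact ((Complex.differentiableOn_dslope (hUo.mem_nhds m3)).mpr hPd).const_mul 3
  have hr1 : 0 < r1 := by linarith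
  set B : ℝ := ‖P (1 / 2)‖ + ‖P (1 / 3)‖ with hB
  have hB0 : 0 ≤ B := by positivity
  -- the bound on the circle
  have hcirc : ∀ s : ℝ, 2 ≤ s → ∀ z ∈ Metric.sphere (s : ℂ) (s - r1),
      ‖K1 z‖ ≤ ((1 / r1 + 24) * C * 3 ^ A + 24 * B) * s ^ A := by
    intro s hs z hz
    have hs0 : 0 < s := by linarith
    rw [Metric.mem_sphere, dist_eq_norm] at hz
    have hre : r1 ≤ z.re := by
      have h3 : |(z - s).re| ≤ ‖z - s‖ := Complex.abs_re_le_norm _
      have h4 := neg_abs_le (z - s).re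
      simp only [Complex.sub_re, Complex.ofReal_re] at h3 h4
      linarith
    have hnz : r1 ≤ ‖z‖ := hre.trans (Complex.re_le_norm z)
    have htri : ∀ c : ℝ, c ≤ 1 / 2 → ‖z - s‖ ≤ ‖z - c‖ + (s - c) := by
      intro c hc
      have h3 : z - s = (z - c) - (((s - c : ℝ)) : ℂ) := by push_cast; ring
      rw [h3]
      refine (norm_sub_le _ _).trans ?_
      rw [Complex.norm_real, Real.norm_of_nonneg (by linarith)]
    have hd2 : 1 / 3 ≤ ‖z - 1 / 2‖ := by
      have h3 := htri (1 / 2) le_rfl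
      push_cast at h3
      linarith
    have hd3 : 1 / 6 ≤ ‖z - 1 / 3‖ := by
      have h3 := htri (1 / 3) (by norm_num)
      push_cast at h3
      linarith
    have hn2 : z ≠ 1 / 2 := by
      intro h; rw [h, sub_self, norm_zero] at hd2; norm_num at hd2
    have hn3 : z ≠ 1 / 3 := by
      intro h; rw [h, sub_self, norm_zero] at hd3; norm_num at hd3
    have hNs : 1 + ‖z‖ ≤ 3 * s := by
      have h3 : ‖z‖ ≤ ‖z - s‖ + s := by
        have := norm_add_le (z - s) s
        rw [sub_add_cancel, Complex.norm_real, Real.norm_of_nonneg hs0.le] at this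
        exact this
      linarith
    have hPz : ‖P z‖ ≤ C * 3 ^ A * s ^ A := by
      refine (hgr z hre).trans ?_
      rw [mul_assoc, ← Real.mul_rpow (by norm_num) hs0.le]
      refine mul_le_mul_of_nonneg_left ?_ (by linarith)
      exact Real.rpow_le_rpow (by positivity) hNs hA
    have hsA : 1 ≤ s ^ A := Real.one_le_rpow (by linarith) hA
    have hP2 : ‖P (1 / 2)‖ ≤ B := by rw [hB]; linarith [norm_nonneg (P (1 / 3))]
    have hP3 : ‖P (1 / 3)‖ ≤ B := by rw [hB]; linarith [norm_nonneg (P (1 / 2))]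
    have t1 : ‖P z / z‖ ≤ 1 / r1 * (C * 3 ^ A * s ^ A) := by
      rw [norm_div, div_le_iff₀ (by linarith)]
      have h3 : 1 ≤ 1 / r1 * ‖z‖ := by
        rw [one_div, inv_mul_eq_div, le_div_iff₀ hr1]
        linarith
      have h4 : 0 ≤ C * 3 ^ A * s ^ A := (norm_nonneg _).trans hPz
      calc ‖P z‖ ≤ (C * 3 ^ A * s ^ A) * 1 := by linarith
        _ ≤ (C * 3 ^ A * s ^ A) * (1 / r1 * ‖z‖) := mul_le_mul_of_nonneg_left h3 h4
        _ = _ := by ring
    have t2 : ‖2 * dslope P (1 / 2) z‖ ≤ 6 * (C * 3 ^ A * s ^ A + B) := by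
      rw [dslope_of_ne _ hn2, slope_def_field, norm_mul, norm_div]
      have h3 : ‖(2 : ℂ)‖ = 2 := by norm_num
      rw [h3]
      have h4 : ‖P z - P (1 / 2)‖ ≤ C * 3 ^ A * s ^ A + B :=
        (norm_sub_le _ _).trans (add_le_add hPz hP2)
      have h5 : ‖P z - P (1 / 2)‖ / ‖z - 1 / 2‖ ≤ 3 * (C * 3 ^ A * s ^ A + B) := by
        rw [div_le_iff₀ (by linarith)]
        have h6 := (norm_nonneg _).trans h4
        nlinarith
      linarith
    have t3 : ‖3 * dslope P (1 / 3) z‖ ≤ 18 * (C * 3 ^ A * s ^ A + B) := by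
      rw [dslope_of_ne _ hn3, slope_def_field, norm_mul, norm_div]
      have h3 : ‖(3 : ℂ)‖ = 3 := by norm_num
      rw [h3]
      have h4 : ‖P z - P (1 / 3)‖ ≤ C * 3 ^ A * s ^ A + B :=
        (norm_sub_le _ _).trans (add_le_add hPz hP3)
      have h5 : ‖P z - P (1 / 3)‖ / ‖z - 1 / 3‖ ≤ 6 * (C * 3 ^ A * s ^ A + B) := by
        rw [div_le_iff₀ (by linarith)]
        have h6 := (norm_nonneg _).trans h4
        nlinarith
      linarith
    have t4 : ‖K1 z‖ ≤ 1 / r1 * (C * 3 ^ A * s ^ A) + 6 * (C * 3 ^ A * s ^ A + B) +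
        18 * (C * 3 ^ A * s ^ A + B) := by
      simp only [hK1]
      refine (norm_sub_le _ _).trans (add_le_add ?_ t3)
      exact (norm_add_le _ _).trans (add_le_add t1 t2)
    refine t4.trans ?_
    have h9 : 24 * B ≤ 24 * B * s ^ A := le_mul_of_one_le_right (by positivity) hsA
    calc _ = (1 / r1 + 24) * C * 3 ^ A * s ^ A + 24 * B := by ring
      _ ≤ (1 / r1 + 24) * C * 3 ^ A * s ^ A + 24 * B * s ^ A := by linarith
      _ = _ := by ring
  set C3 : ℝ := (1 / r1 + 24) * C * 3 ^ A + 24 * B with hC3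
  have hC30 : 0 ≤ C3 := by
    rw [hC3]
    have : 0 ≤ 1 / r1 := by positivity
    positivity
  refine ⟨C3, A + 1, by linarith, fun k s hs => ?_⟩
  have hs0 : 0 < s := by linarith
  have hsr : 0 < s - r1 := by linarith
  have hball : Metric.ball (s : ℂ) (s - r0) ⊆ U := by
    intro z hz
    rw [Metric.mem_ball, dist_eq_norm] at hz
    have h3 : |(z - s).re| ≤ ‖z - s‖ := Complex.abs_re_le_norm _
    have h4 := neg_abs_le (z - s).re
    simp only [Complex.sub_re, Complex.ofReal_re] at h3 h4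
    show r0 < z.re
    linarith
  have hTk := T_bound' (hK1d.mono hball) hsr (by linarith) (hcirc s hs) k
  have hT : T (s : ℂ) Hf = T (s : ℂ) K1 := by
    apply T_congr
    have hopen2 : {s : ℂ | 1 / 2 < s.re} ∈ 𝓝 (s : ℂ) := by
      apply (isOpen_lt continuous_const Complex.continuous_re).mem_nhds
      show 1 / 2 < (s : ℂ).re
      rw [Complex.ofReal_re]
      linarith
    filter_upwards [hopen2] with z hz
    have hz' : 1 / 2 < z.re := hz
    have hne : ∀ c : ℂ, c.re ≤ 1 / 2 → z - c ≠ 0 := by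
      intro c hc h
      have : z = c := sub_eq_zero.mp h
      rw [this] at hz'
      linarith
    have n0 := hne 0 (by norm_num)
    have n2 := hne (1 / 2) (by norm_num)
    have n3 := hne (1 / 3) (by norm_num)
    have pz : P z = Phi z := hPhi z (by show r0 < z.re; linarith) (zf_one (by simp; linarith))
    rw [sub_zero] at n0
    rw [hf_eq hz']
    simp only [hK1]
    unfold Kf
    rw [dslope_of_ne _ n0, dslope_of_ne _ (sub_ne_zero.mp n2),
      dslope_of_ne _ (sub_ne_zero.mp n3), dslope_of_ne _ (sub_ne_zero.mp n2),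
      dslope_of_ne _ (sub_ne_zero.mp n3), slope_def_field, slope_def_field, slope_def_field,
      slope_def_field, slope_def_field, p2, p3, pz, phi_zero, sub_zero]
    ring
  have hk : (0 : ℝ) < (k.factorial : ℝ) := by exact_mod_cast k.factorial_pos
  rw [abs_mul, mean_coeff (by linarith), abs_of_nonneg (by positivity), hT]
  have e1 : s ^ (k + 1) / (k.factorial : ℝ) *
      ((k.factorial : ℝ) * ‖PowerSeries.coeff k (T (s : ℂ) K1)‖) =
      s ^ (k + 1) * ‖PowerSeries.coeff k (T (s : ℂ) K1)‖ := by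
    field_simp
  rw [e1]
  have e2 : s ^ (k + 1) * (C3 * s ^ A * (1 / (s - r1)) ^ k) =
      C3 * s ^ A * (s - r1) * (s / (s - r1)) ^ (k + 1) := by
    rw [one_div_pow, div_pow, pow_succ (s - r1) k]
    field_simp
  refine (mul_le_mul_of_nonneg_left hTk (by positivity)).trans ?_
  rw [e2]
  have e3 : s ^ (A + 1) = s ^ A * s := by rw [Real.rpow_add hs0, Real.rpow_one]
  rw [e3]
  have e4 : C3 * s ^ A * (s - r1) ≤ C3 * (s ^ A * s) := by
    rw [mul_assoc]
    refine mul_le_mul_of_nonneg_left ?_ hC30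
    exact mul_le_mul_of_nonneg_left (by linarith) (by positivity)
  exact mul_le_mul_of_nonneg_right e4 (by positivity)

end Pool.PWQ
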