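import Pool.Agent.PWE.Gam

/-!
# PWQ TAIL: narrow Gamma windows
-/

set_option autoImplicit false

open Complex Finset Filter Topology MeasureTheory

namespace Pool.PWQ

private theorem inv_one_sub {x : ℝ} (h0 : 0 ≤ x) (h1 : x ≤ 1 / 2) :
    1 / (1 - x) ≤ Real.exp (x + x ^ 2) := by
  have h2 := Real.quadratic_le_exp_of_nonneg (x := x + x ^ 2) (by positivity)
  rw [div_le_iff₀ (by linarith)]
  have h3 : 1 ≤ (1 + (x + x ^ 2) + (x + x ^ 2) ^ 2 / 2) * (1 - x) := by
    have h4 : 0 ≤ 1 - x - x ^ 2 - x ^ 3 := by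
      have h5 : x ^ 2 ≤ 1 / 4 := by nlinarith
      have h6 : x ^ 3 ≤ 1 / 8 := by nlinarith
      linarith
    have h5 : (1 + (x + x ^ 2) + (x + x ^ 2) ^ 2 / 2) * (1 - x) =
        1 + x ^ 2 / 2 * (1 - x - x ^ 2 - x ^ 3) := by ring
    rw [h5]
    have : 0 ≤ x ^ 2 / 2 * (1 - x - x ^ 2 - x ^ 3) := by positivity
    linarith
  exact h3.trans (mul_le_mul_of_nonneg_right h2 (by linarith))

private theorem inv_one_add {x : ℝ} (h0 : 0 ≤ x) :
    1 / (1 + x) ≤ Real.exp (-x + x ^ 2) := by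
  have h2 := Real.add_one_le_exp (-x + x ^ 2)
  rw [div_le_iff₀ (by linarith)]
  have h3 : 1 ≤ (-x + x ^ 2 + 1) * (1 + x) := by
    have : (-x + x ^ 2 + 1) * (1 + x) = 1 + x ^ 3 := by ring
    rw [this]
    have : 0 ≤ x ^ 3 := by positivity
    linarith
  exact h3.trans (mul_le_mul_of_nonneg_right h2 (by linarith))

/-- the upper tail factor -/
private theorem upper {L s τ : ℝ} {k : ℕ} (hL : 1 ≤ L) (hk1 : (k : ℝ) ≤ s * L) (hτ : 0 < τ)
    (hτ1 : τ ≤ 1) (hs : 8 * L ≤ s) :
    Real.exp (-(s * τ / (4 * L)) * (L + τ)) *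
      (s * (1 / (s - (s * τ / (4 * L) + 1)))) ^ (k + 1) ≤
      3 * Real.exp (2 * L - s * τ ^ 2 / (32 * L)) := by
  have hs0 : 0 < s := by linarith
  set l : ℝ := s * τ / (4 * L) with hl
  have hl0 : 0 < l := by rw [hl]; positivity
  have hlL : l * L = s * τ / 4 := by rw [hl]; field_simp
  set x : ℝ := (l + 1) / s with hx
  have hx0 : 0 ≤ x := by rw [hx]; positivity
  have hls : l / s ≤ 1 / 4 := by
    rw [div_le_iff₀ hs0]
    have : l * 1 ≤ l * L := mul_le_mul_of_nonneg_left hL hl0.le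
    nlinarith
  have h1s : 1 / s ≤ 1 / 8 := one_div_le_one_div_of_le (by norm_num) (by linarith)
  have hx1 : x ≤ 1 / 2 := by
    have : x = l / s + 1 / s := by rw [hx]; ring
    rw [this]; linarith
  have hxs : x * s = l + 1 := by rw [hx]; field_simp
  have e1 : s * (1 / (s - (l + 1))) = 1 / (1 - x) := by
    have h1 : s - (l + 1) = s * (1 - x) := by rw [← hxs]; ring
    rw [h1]
    have h2 : 1 - x ≠ 0 := by linarith
    field_simp
  rw [e1]
  have h3 : (1 / (1 - x)) ^ (k + 1) ≤ Real.exp ((s * L + 1) * (x + x ^ 2)) := by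
    have h4 : 0 ≤ 1 / (1 - x) := by
      apply div_nonneg zero_le_one; linarith
    refine (pow_le_pow_left₀ h4 (inv_one_sub hx0 hx1) (k + 1)).trans ?_
    rw [← Real.exp_nat_mul]
    apply Real.exp_le_exp.mpr
    push_cast
    exact mul_le_mul_of_nonneg_right (by linarith) (by positivity)
  have h5 : Real.exp (-l * (L + τ)) * (1 / (1 - x)) ^ (k + 1) ≤
      Real.exp (-l * (L + τ) + (s * L + 1) * (x + x ^ 2)) := by
    rw [Real.exp_add]
    exact mul_le_mul_of_nonneg_left h3 (Real.exp_pos _).le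
  refine h5.trans ?_
  have h6 : -l * (L + τ) + (s * L + 1) * (x + x ^ 2) ≤ 1 + (2 * L - s * τ ^ 2 / (32 * L)) := by
    have a1 : s * L * x = (l + 1) * L := by rw [← hxs]; ring
    have a2 : s * L * x ^ 2 = (l + 1) ^ 2 * L / s := by
      rw [hx]; field_simp
    have a3 : (l + 1) ^ 2 * L / s ≤ (2 * l ^ 2 + 2) * L / s := by
      apply div_le_div_of_nonneg_right _ hs0.le
      apply mul_le_mul_of_nonneg_right _ (by linarith)
      nlinarith [sq_nonneg (l - 1)]
    have a4 : (2 * l ^ 2 + 2) * L / s = 2 * (l ^ 2 * L / s) + 2 * (L / s) := by ring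
    have a5 : l ^ 2 * L / s = s * τ ^ 2 / (16 * L) := by
      rw [hl]; field_simp; ring
    have a6 : L / s ≤ 1 / 8 := by
      rw [div_le_iff₀ hs0]; linarith
    have a7 : x + x ^ 2 ≤ 3 / 4 := by nlinarith
    have a8 : l * τ = s * τ ^ 2 / (4 * L) := by rw [hl]; ring
    have a9 : 0 ≤ s * τ ^ 2 / (32 * L) := by positivity
    have b1 : s * τ ^ 2 / (4 * L) = 8 * (s * τ ^ 2 / (32 * L)) := by ring
    have b2 : s * τ ^ 2 / (16 * L) = 2 * (s * τ ^ 2 / (32 * L)) := by ring
    have b3 : -l * (L + τ) + (s * L + 1) * (x + x ^ 2) =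
        -(l * L) - l * τ + s * L * x + s * L * x ^ 2 + (x + x ^ 2) := by ring
    rw [b3, a1, a2, a8, b1]
    rw [a4, a5, b2] at a3
    nlinarith
  refine (Real.exp_le_exp.mpr h6).trans ?_
  rw [Real.exp_add]
  apply mul_le_mul_of_nonneg_right _ (Real.exp_pos _).le
  have := Real.exp_one_lt_d9
  linarith

/-- the lower tail factor -/
private theorem lower {L s τ : ℝ} {k : ℕ} (hL : 1 ≤ L) (hk2 : s * L < k + 1) (hτ : 0 < τ)
    (hτ1 : τ ≤ 1) (hs : 8 * L ≤ s) :
    Real.exp (L + s * τ / (4 * L) * (L - τ)) *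
      (s * (1 / (s + s * τ / (4 * L)))) ^ (k + 1) ≤
      Real.exp (2 * L - s * τ ^ 2 / (32 * L)) := by
  have hs0 : 0 < s := by linarith
  set l : ℝ := s * τ / (4 * L) with hl
  have hl0 : 0 < l := by rw [hl]; positivity
  have hlL : l * L = s * τ / 4 := by rw [hl]; field_simp
  set x : ℝ := l / s with hx
  have hx0 : 0 ≤ x := by rw [hx]; positivity
  have hls : x ≤ 1 / 4 := by
    rw [hx, div_le_iff₀ hs0]
    have : l * 1 ≤ l * L := mul_le_mul_of_nonneg_left hL hl0.le
    nlinarith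
  have hxs : x * s = l := by rw [hx]; field_simp
  have e1 : s * (1 / (s + l)) = 1 / (1 + x) := by
    have h1 : s + l = s * (1 + x) := by rw [← hxs]; ring
    rw [h1]
    have h2 : 1 + x ≠ 0 := by linarith
    field_simp
  rw [e1]
  have h3 : (1 / (1 + x)) ^ (k + 1) ≤ Real.exp (s * L * (-x + x ^ 2)) := by
    have h4 : 0 ≤ 1 / (1 + x) := by positivity
    refine (pow_le_pow_left₀ h4 (inv_one_add hx0) (k + 1)).trans ?_
    rw [← Real.exp_nat_mul]
    apply Real.exp_le_exp.mpr
    push_cast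
    exact mul_le_mul_of_nonpos_right hk2.le (by nlinarith)
  have h5 : Real.exp (L + l * (L - τ)) * (1 / (1 + x)) ^ (k + 1) ≤
      Real.exp (L + l * (L - τ) + s * L * (-x + x ^ 2)) := by
    rw [Real.exp_add (L + l * (L - τ))]
    exact mul_le_mul_of_nonneg_left h3 (Real.exp_pos _).le
  refine h5.trans ?_
  apply Real.exp_le_exp.mpr
  have a1 : s * L * x = l * L := by rw [← hxs]; ring
  have a2 : s * L * x ^ 2 = l ^ 2 * L / s := by
    rw [hx]; field_simp
  have a5 : l ^ 2 * L / s = s * τ ^ 2 / (16 * L) := by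
    rw [hl]; field_simp; ring
  have a8 : l * τ = s * τ ^ 2 / (4 * L) := by rw [hl]; ring
  have a9 : 0 ≤ s * τ ^ 2 / (32 * L) := by positivity
  have b1 : s * τ ^ 2 / (4 * L) = 8 * (s * τ ^ 2 / (32 * L)) := by ring
  have b2 : s * τ ^ 2 / (16 * L) = 2 * (s * τ ^ 2 / (32 * L)) := by ring
  have b3 : L + l * (L - τ) + s * L * (-x + x ^ 2) =
      L + l * L - l * τ - s * L * x + s * L * x ^ 2 := by ring
  rw [b3, a1, a2, a5, a8, b1, b2]
  linarith

theorem gamma_window {f : ℝ → ℝ} (hf : Measurable f) {C0 : ℝ}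
    (hb : ∀ y : ℝ, 0 ≤ y → |f y| ≤ C0 * Real.exp y) : ∃ C1 : ℝ, ∀ (L s τ D : ℝ) (k : ℕ),
    1 ≤ L → (k : ℝ) ≤ s * L → s * L < k + 1 → 0 < τ → τ ≤ 1 → 8 * L ≤ s →
    (∀ y : ℝ, |y - L| ≤ τ → |f y - f L| ≤ D) →
    |s ^ (k + 1) / (k.factorial : ℝ) *
      (∫ y in Set.Ioi (0 : ℝ), f y * Real.exp (-s * y) * y ^ k) - f L| ≤
      D + C1 * Real.exp (2 * L - s * τ ^ 2 / (32 * L)) := by
  have hC0 : 0 ≤ C0 := by
    have := (abs_nonneg _).trans (hb 0 le_rfl)
    simpa using this
  refine ⟨8 * C0, fun L s τ D k hL hk1 hk2 hτ hτ1 hs hD => ?_⟩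
  have hs0 : 0 < s := by linarith
  have hkf : (0 : ℝ) < (k.factorial : ℝ) := by exact_mod_cast k.factorial_pos
  set l : ℝ := s * τ / (4 * L) with hl
  have hl0 : 0 < l := by rw [hl]; positivity
  have hD0 : 0 ≤ D := by
    have := hD L (by simp [hτ.le])
    simpa using this
  have hls : l + 1 < s := by
    have h1 : l ≤ s / 4 := by
      rw [hl, div_le_iff₀ (by positivity)]
      nlinarith
    linarith
  set G : ℝ → ℝ → ℝ := fun B y => Real.exp (-B * y) * y ^ k / (k.factorial : ℝ) with hG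
  obtain ⟨i0, v0⟩ := Pool.PWE.gam hs0 k
  obtain ⟨i1, v1⟩ := Pool.PWE.gam (B := s - (l + 1)) (by linarith) k
  obtain ⟨i2, v2⟩ := Pool.PWE.gam (B := s + l) (by linarith) k
  obtain ⟨i3, _⟩ := Pool.PWE.gam (B := s - 1) (by linarith) k
  -- the function `f w` is integrable
  have hmeas : AEStronglyMeasurable (fun y : ℝ => f y * G s y) (volume.restrict (Set.Ioi 0)) := by
    apply Measurable.aestronglyMeasurable
    simp only [hG]
    fun_prop
  have hint : IntegrableOn (fun y : ℝ => f y * G s y) (Set.Ioi 0) := by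
    refine Integrable.mono' (i3.const_mul C0) hmeas ?_
    refine (ae_restrict_iff' measurableSet_Ioi).2 (Filter.Eventually.of_forall fun y hy => ?_)
    have hy0 : 0 < y := hy
    have hGn : 0 ≤ G s y := by simp only [hG]; positivity
    rw [norm_mul, Real.norm_eq_abs, Real.norm_of_nonneg hGn]
    calc |f y| * G s y ≤ (C0 * Real.exp y) * G s y :=
          mul_le_mul_of_nonneg_right (hb y hy0.le) hGn
      _ = C0 * (Real.exp (-(s - 1) * y) * y ^ k / (k.factorial : ℝ)) := by
          have e : Real.exp (-(s - 1) * y) = Real.exp y * Real.exp (-s * y) := by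
            rw [← Real.exp_add]; congr 1; ring
          simp only [hG]
          rw [e]; ring
  have hint2 : IntegrableOn (fun y : ℝ => f L * G s y) (Set.Ioi 0) := i0.const_mul _
  have hmain : s ^ (k + 1) / (k.factorial : ℝ) *
      (∫ y in Set.Ioi (0 : ℝ), f y * Real.exp (-s * y) * y ^ k) - f L =
      s ^ (k + 1) * ∫ y in Set.Ioi (0 : ℝ), (f y - f L) * G s y := by
    have e1 : ∫ y in Set.Ioi (0 : ℝ), (f y - f L) * G s y =
        (∫ y in Set.Ioi (0 : ℝ), f y * G s y) - f L * (1 / s) ^ (k + 1) := by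
      rw [← v0, ← integral_const_mul, ← integral_sub hint hint2]
      refine integral_congr_ae (Filter.Eventually.of_forall fun y => ?_)
      simp only [hG]
      ring
    have e2 : ∫ y in Set.Ioi (0 : ℝ), f y * G s y =
        (∫ y in Set.Ioi (0 : ℝ), f y * Real.exp (-s * y) * y ^ k) / (k.factorial : ℝ) := by
      rw [← integral_div]
      refine integral_congr_ae (Filter.Eventually.of_forall fun y => ?_)
      simp only [hG]
      ring
    have e3 : s ^ (k + 1) * (1 / s) ^ (k + 1) = 1 := by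
      rw [← mul_pow, mul_one_div_cancel hs0.ne', one_pow]
    rw [e1, e2, mul_sub]
    have e4 : s ^ (k + 1) * (f L * (1 / s) ^ (k + 1)) = f L := by
      rw [mul_left_comm, e3, mul_one]
    rw [e4]
    ring
  rw [hmain, abs_mul, abs_of_nonneg (by positivity : (0 : ℝ) ≤ s ^ (k + 1))]
  -- the dominating function
  set c1 : ℝ := 2 * C0 * Real.exp (-l * (L + τ)) with hc1
  set c2 : ℝ := 2 * C0 * Real.exp (L + l * (L - τ)) with hc2
  have hc10 : 0 ≤ c1 := by rw [hc1]; positivity
  have hc20 : 0 ≤ c2 := by rw [hc2]; positivity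
  have hbi : IntegrableOn (fun y : ℝ => D * G s y + c1 * G (s - (l + 1)) y + c2 * G (s + l) y)
      (Set.Ioi 0) := ((i0.const_mul D).add (i1.const_mul c1)).add (i2.const_mul c2)
  have hle := norm_integral_le_of_norm_le hbi (f := fun y : ℝ => (f y - f L) * G s y) (by
    refine (ae_restrict_iff' measurableSet_Ioi).2 (Filter.Eventually.of_forall fun y hy => ?_)
    have hy0 : 0 < y := hy
    have hGn : 0 ≤ G s y := by simp only [hG]; positivity
    rw [norm_mul, Real.norm_eq_abs, Real.norm_of_nonneg hGn]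
    have g1 : c1 * G (s - (l + 1)) y =
        2 * C0 * Real.exp (y + l * (y - L - τ)) * G s y := by
      have e : Real.exp (-l * (L + τ)) * Real.exp (-(s - (l + 1)) * y) =
          Real.exp (y + l * (y - L - τ)) * Real.exp (-s * y) := by
        rw [← Real.exp_add, ← Real.exp_add]; congr 1; ring
      simp only [hG]
      rw [hc1]
      linear_combination (2 * C0 * y ^ k / (k.factorial : ℝ)) * e
    have g2 : c2 * G (s + l) y = 2 * C0 * Real.exp (L + l * (L - τ - y)) * G s y := by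
      have e : Real.exp (L + l * (L - τ)) * Real.exp (-(s + l) * y) =
          Real.exp (L + l * (L - τ - y)) * Real.exp (-s * y) := by
        rw [← Real.exp_add, ← Real.exp_add]; congr 1; ring
      simp only [hG]
      rw [hc2]
      linear_combination (2 * C0 * y ^ k / (k.factorial : ℝ)) * e
    rw [g1, g2, ← add_mul, ← add_mul]
    refine mul_le_mul_of_nonneg_right ?_ hGn
    have n1 : 0 ≤ 2 * C0 * Real.exp (y + l * (y - L - τ)) := by positivity
    have n2 : 0 ≤ 2 * C0 * Real.exp (L + l * (L - τ - y)) := by positivity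
    rcases le_or_gt |y - L| τ with h | h
    · have := hD y h
      linarith
    have hfy := hb y hy0.le
    have hfL := hb L (by linarith)
    have h1 : |f y - f L| ≤ C0 * Real.exp y + C0 * Real.exp L :=
      (abs_sub _ _).trans (add_le_add hfy hfL)
    rcases lt_abs.mp h with h2 | h2
    · have h3 : Real.exp y ≤ Real.exp (y + l * (y - L - τ)) := by
        apply Real.exp_le_exp.mpr
        have : 0 ≤ l * (y - L - τ) := mul_nonneg hl0.le (by linarith)
        linarith
      have h4 : Real.exp L ≤ Real.exp y := Real.exp_le_exp.mpr (by linarith)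
      have h5 : C0 * Real.exp L ≤ C0 * Real.exp y := mul_le_mul_of_nonneg_left h4 hC0
      have h6 : C0 * Real.exp y ≤ C0 * Real.exp (y + l * (y - L - τ)) :=
        mul_le_mul_of_nonneg_left h3 hC0
      linarith
    · have h3 : Real.exp L ≤ Real.exp (L + l * (L - τ - y)) := by
        apply Real.exp_le_exp.mpr
        have : 0 ≤ l * (L - τ - y) := mul_nonneg hl0.le (by linarith)
        linarith
      have h4 : Real.exp y ≤ Real.exp L := Real.exp_le_exp.mpr (by linarith)
      have h5 : C0 * Real.exp y ≤ C0 * Real.exp L := mul_le_mul_of_nonneg_left h4 hC0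
      have h6 : C0 * Real.exp L ≤ C0 * Real.exp (L + l * (L - τ - y)) :=
        mul_le_mul_of_nonneg_left h3 hC0
      linarith)
  rw [Real.norm_eq_abs] at hle
  have hval : ∫ y in Set.Ioi (0 : ℝ), (D * G s y + c1 * G (s - (l + 1)) y + c2 * G (s + l) y) =
      D * (1 / s) ^ (k + 1) + c1 * (1 / (s - (l + 1))) ^ (k + 1) + c2 * (1 / (s + l)) ^ (k + 1) := by
    have j0 : IntegrableOn (fun y : ℝ => D * G s y) (Set.Ioi 0) := i0.const_mul D
    have j1 : IntegrableOn (fun y : ℝ => c1 * G (s - (l + 1)) y) (Set.Ioi 0) := i1.const_mul c1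
    have j2 : IntegrableOn (fun y : ℝ => c2 * G (s + l) y) (Set.Ioi 0) := i2.const_mul c2
    have j3 : IntegrableOn (fun y : ℝ => D * G s y + c1 * G (s - (l + 1)) y) (Set.Ioi 0) :=
      j0.add j1
    rw [integral_add j3 j2, integral_add j0 j1, integral_const_mul, integral_const_mul,
      integral_const_mul]
    simp only [hG]
    rw [v0, v1, v2]
  rw [hval] at hle
  refine (mul_le_mul_of_nonneg_left hle (by positivity)).trans ?_
  have e3 : s ^ (k + 1) * (1 / s) ^ (k + 1) = 1 := by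
    rw [← mul_pow, mul_one_div_cancel hs0.ne', one_pow]
  have hu := upper (k := k) hL hk1 hτ hτ1 hs
  have hlo := lower (k := k) hL hk2 hτ hτ1 hs
  rw [← hl] at hu hlo
  have e5 : s ^ (k + 1) * (D * (1 / s) ^ (k + 1) + c1 * (1 / (s - (l + 1))) ^ (k + 1) +
      c2 * (1 / (s + l)) ^ (k + 1)) = D + 2 * C0 * (Real.exp (-l * (L + τ)) *
        (s * (1 / (s - (l + 1)))) ^ (k + 1)) + 2 * C0 * (Real.exp (L + l * (L - τ)) *
        (s * (1 / (s + l))) ^ (k + 1)) := by
    rw [mul_pow, mul_pow, hc1, hc2]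
    linear_combination D * e3
  rw [e5]
  set X : ℝ := Real.exp (2 * L - s * τ ^ 2 / (32 * L)) with hX
  have q1 := mul_le_mul_of_nonneg_left hu (by positivity : (0 : ℝ) ≤ 2 * C0)
  have q2 := mul_le_mul_of_nonneg_left hlo (by positivity : (0 : ℝ) ≤ 2 * C0)
  linarith

end Pool.PWQ
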