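import Pool.Agent.Helper76.PWF.Int
import Pool.Agent.PWE.Fin
import Pool.Agent.Helper76.PWQ.Tail

/-!
# PWQ PTS: uniform bounds for the Gamma means and the slow oscillation of `E` give pointwise bounds

`Pool.PWF.E = Pool.PWE.E` (same definition up to `n != 0`). Let `x = e^L` be large, `s = x^e`
(`e > 0` small in terms of `r1`, `A`), `k = floor(s L)`, `tau = x^(-e/3)`. Part (1) of
`Pool.PWE.main` with `eps = e/4`: `|E(e^y) - E(x)| <= x^(1/6-delta)` for `|y - L| <= tau`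
(for `y < L` use the base `e^y`). `gamma_window` with `f y = E(e^y)` and the hypothesis
(`Pool.PWF.mean_eq` changes variables): `|E(x)| <= |M(k,s)| + x^(1/6-delta) + C1 e^(2L - s tau^2/(32 L))`,
the last term tends to zero (`s tau^2 = x^(e/3)`), and
`|M(k,s)| <= C x^(e A) (1 - r1/s)^(-(k+1)) <= C' x^(e A + r1)` since `k + 1 <= s L + 1`.
-/

set_option autoImplicit false

open Complex Finset Filter Topology MeasureTheory

namespace Pool.PWQ

theorem E_eq : Pool.PWF.E = Pool.PWE.E := by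
  funext x
  have hQ : Pool.PWF.Q x = (Pool.PWE.Q x : ℝ) := by
    unfold Pool.PWF.Q Pool.PWE.Q
    rw [Nat.cast_inj]
    apply congrArg
    ext n
    simp only [Finset.mem_filter, Finset.mem_Icc]
    constructor
    · rintro ⟨h1, h2⟩
      exact ⟨h1, h2.2⟩
    · rintro ⟨h1, h2⟩
      exact ⟨h1, by have := h1.1; omega, h2⟩
  unfold Pool.PWF.E Pool.PWE.E
  rw [hQ, Real.sqrt_eq_rpow]
  rfl

theorem pts_pow {r1 L s : ℝ} {k : ℕ} (hr0 : 0 ≤ r1) (hr1 : r1 < 1 / 6) (hL : 1 ≤ L)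
    (hs : 8 * L ≤ s) (hk : (k : ℝ) ≤ s * L) :
    (s / (s - r1)) ^ (k + 1) ≤ 3 * Real.exp (r1 * L) := by
  have hs0 : 0 < s := by linarith
  have hsr : 0 < s - r1 := by linarith
  have h1 : s / (s - r1) ≤ Real.exp (r1 / (s - r1)) := by
    have h2 := Real.add_one_le_exp (r1 / (s - r1))
    have h3 : s / (s - r1) = r1 / (s - r1) + 1 := by
      field_simp
      ring
    rw [h3]
    exact h2
  have h4 : (s / (s - r1)) ^ (k + 1) ≤ Real.exp (r1 / (s - r1)) ^ (k + 1) :=
    pow_le_pow_left₀ (by positivity) h1 _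
  have h5 : Real.exp (r1 / (s - r1)) ^ (k + 1) ≤ Real.exp (r1 * L + 1) := by
    rw [← Real.exp_nat_mul]
    apply Real.exp_le_exp.2
    push_cast
    have h6 : ((k : ℝ) + 1) * (r1 / (s - r1)) ≤ (s * L + 1) * (r1 / (s - r1)) :=
      mul_le_mul_of_nonneg_right (by linarith) (by positivity)
    refine h6.trans ?_
    rw [mul_div_assoc', div_le_iff₀ hsr]
    nlinarith [mul_nonneg hr0 hr0, mul_nonneg (mul_nonneg hr0 hr0) (by linarith : (0 : ℝ) ≤ L),
      mul_nonneg hr0 (by linarith : (0 : ℝ) ≤ L), mul_nonneg (by linarith : (0 : ℝ) ≤ 1 / 6 - r1) (by linarith : (0 : ℝ) ≤ L), mul_nonneg hr0 (mul_nonneg (by linarith : (0 : ℝ) ≤ 1 / 6 - r1) (by linarith : (0 : ℝ) ≤ L))]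
  have h7 : Real.exp (r1 * L + 1) ≤ 3 * Real.exp (r1 * L) := by
    rw [Real.exp_add, mul_comm]
    apply mul_le_mul_of_nonneg_right _ (Real.exp_pos _).le
    have := Real.exp_one_lt_d9
    linarith
  exact h4.trans (h5.trans h7)

theorem points_of_means {r1 A C : ℝ} (hr0 : 0 ≤ r1) (hr1 : r1 < 1 / 6) (hA : 0 ≤ A)
    (h : ∀ (k : ℕ) (s : ℝ), 2 ≤ s → |s ^ (k + 1) / (k.factorial : ℝ) *
      (∫ x in Set.Ioi (1 : ℝ), Pool.PWF.E x * Real.log x ^ k * x ^ (-s - 1))| ≤
        C * s ^ A * (s / (s - r1)) ^ (k + 1)) :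
    ∃ δ : ℝ, 0 < δ ∧ Pool.PWF.E =O[atTop] fun x : ℝ => x ^ (1 / 6 - δ) := by
  obtain ⟨γ, hγ⟩ : ∃ γ : ℝ, γ = 1 / 6 - r1 := ⟨_, rfl⟩
  have hγ0 : 0 < γ := by rw [hγ]; linarith
  obtain ⟨e, he⟩ : ∃ e : ℝ, e = γ / (2 * (A + 1)) := ⟨_, rfl⟩
  have he0 : 0 < e := by rw [he]; positivity
  have heA : e * (A + 1) = γ / 2 := by
    rw [he]
    field_simp
  have heA' : e * A ≤ γ / 2 := by nlinarith
  have he1 : e ≤ 1 / 12 := by nlinarith [mul_nonneg he0.le hA]
  obtain ⟨δ1, hδ1, X0, hosc, -⟩ := Pool.PWE.main (ε := e / 4) (by positivity) (by linarith)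
  obtain ⟨δ', hδ'⟩ : ∃ δ' : ℝ, δ' = min δ1 (1 / 12) := ⟨_, rfl⟩
  have hδ'0 : 0 < δ' := by rw [hδ']; exact lt_min hδ1 (by norm_num)
  have hδ'1 : δ' ≤ δ1 := by rw [hδ']; exact min_le_left _ _
  have hδ'2 : δ' ≤ 1 / 12 := by rw [hδ']; exact min_le_right _ _
  obtain ⟨C0, hC0⟩ := Pool.PWF.E_bound (r := 1) (by norm_num)
  have hmeas : Measurable fun y : ℝ => Pool.PWF.E (Real.exp y) :=
    Pool.PWF.E_measurable.comp Real.measurable_exp
  obtain ⟨C1, hC1⟩ := gamma_window hmeas (C0 := C0) (fun y hy => by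
    have := hC0 y hy
    rwa [one_mul] at this)
  refine ⟨min (γ / 2) δ', lt_min (by positivity) hδ'0, ?_⟩
  refine Asymptotics.IsBigO.of_bound (3 * |C| + 1 + |C1|) ?_
  have a1 : ∀ᶠ x : ℝ in atTop, 8 * Real.log x ≤ x ^ e := by
    filter_upwards [(isLittleO_log_rpow_atTop he0).bound (show (0 : ℝ) < 1 / 8 by norm_num),
      eventually_ge_atTop 1] with x hx hx1
    rw [Real.norm_of_nonneg (Real.log_nonneg hx1), Real.norm_of_nonneg (by positivity)] at hx
    linarith
  have a2 : ∀ᶠ x : ℝ in atTop, 6 ≤ x ^ (e / 12) :=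
    (tendsto_rpow_atTop (by positivity)).eventually_ge_atTop 6
  have a3 : ∀ᶠ x : ℝ in atTop, 64 * Real.log x ^ 2 ≤ x ^ (e / 3) := by
    filter_upwards [(isLittleO_log_rpow_atTop (show 0 < e / 6 by positivity)).bound
      (show (0 : ℝ) < 1 / 8 by norm_num), eventually_ge_atTop 1] with x hx hx1
    have hl := Real.log_nonneg hx1
    rw [Real.norm_of_nonneg hl, Real.norm_of_nonneg (by positivity)] at hx
    have h3 : x ^ (e / 3) = x ^ (e / 6) * x ^ (e / 6) := by
      rw [← Real.rpow_add (by linarith)]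
      ring_nf
    rw [h3]
    have h4 : 0 < x ^ (e / 6) := by positivity
    nlinarith
  filter_upwards [a1, a2, a3, eventually_ge_atTop (3 * X0), eventually_ge_atTop 3] with x b1 b2 b3
    b4 b5
  have hx0 : 0 < x := by linarith
  have hx1 : 1 ≤ x := by linarith
  have hxX : X0 ≤ x / 3 := by linarith
  have hxX' : X0 ≤ x := by
    rcases le_or_gt X0 0 with h0 | h0
    · linarith
    · linarith
  set L := Real.log x with hL
  have hL1 : 1 ≤ L := by
    rw [hL, Real.le_log_iff_exp_le hx0]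
    have := Real.exp_one_lt_d9
    linarith
  have hexpL : Real.exp L = x := Real.exp_log hx0
  set s := x ^ e with hs
  have hs0 : 0 < s := by positivity
  set τ := x ^ (-(e / 3)) with hτ
  have hτ0 : 0 < τ := by positivity
  have hsτ : s * τ ^ 2 = x ^ (e / 3) := by
    rw [hs, hτ, ← Real.rpow_natCast, ← Real.rpow_mul hx0.le, ← Real.rpow_add hx0]
    congr 1
    push_cast
    ring
  have hτ6 : τ ≤ 1 / 6 := by
    have h1 : x ^ (e / 12) ≤ x ^ (e / 3) :=
      Real.rpow_le_rpow_of_exponent_le hx1 (by linarith)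
    have h2 : τ * x ^ (e / 3) = 1 := by
      rw [hτ, ← Real.rpow_add hx0]
      norm_num
    nlinarith
  have hxτ : x * τ * 6 ≤ x ^ (1 - e / 4) := by
    have h1 : x ^ (1 - e / 4) = x * τ * x ^ (e / 12) := by
      rw [hτ]
      nth_rewrite 2 [← Real.rpow_one x]
      rw [← Real.rpow_add hx0, ← Real.rpow_add hx0]
      congr 1
      ring
    rw [h1]
    exact mul_le_mul_of_nonneg_left b2 (by positivity)
  have hD : ∀ y : ℝ, |y - L| ≤ τ →
      |Pool.PWF.E (Real.exp y) - Pool.PWF.E (Real.exp L)| ≤ x ^ (1 / 6 - δ') := by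
    intro y hy
    rw [hexpL]
    have h1 : |Real.exp (y - L) - 1| ≤ 2 * |y - L| := Real.abs_exp_sub_one_le (by linarith)
    have h2 : Real.exp y = x * Real.exp (y - L) := by
      rw [Real.exp_sub, hexpL]
      field_simp
    have h3 : |Real.exp y - x| ≤ 2 * (x * τ) := by
      rw [h2, show x * Real.exp (y - L) - x = x * (Real.exp (y - L) - 1) by ring, abs_mul,
        abs_of_pos hx0]
      have := mul_le_mul_of_nonneg_left (h1.trans (mul_le_mul_of_nonneg_left hy (by norm_num)))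
        hx0.le
      linarith
    have h3' := abs_le.1 h3
    have hxt : 0 ≤ x * τ := by positivity
    rcases le_total x (Real.exp y) with h4 | h4
    · have h5 := hosc x (Real.exp y - x) hxX' (by linarith) (by linarith)
      rw [add_sub_cancel] at h5
      rw [E_eq]
      refine h5.trans ?_
      exact Real.rpow_le_rpow_of_exponent_le hx1 (by linarith)
    · have h6 : x / 3 ≤ Real.exp y := by nlinarith
      have h7 : (1 : ℝ) ≤ Real.exp y := by linarith
      have h8 : x ^ (1 - e / 4) / 3 ≤ Real.exp y ^ (1 - e / 4) := by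
        have h9 : (x / 3) ^ (1 - e / 4) ≤ Real.exp y ^ (1 - e / 4) :=
          Real.rpow_le_rpow (by positivity) h6 (by linarith)
        refine le_trans ?_ h9
        rw [Real.div_rpow hx0.le (by norm_num)]
        apply div_le_div_of_nonneg_left (by positivity) (by positivity)
        have h10 : (3 : ℝ) ^ (1 - e / 4) ≤ 3 ^ (1 : ℝ) :=
          Real.rpow_le_rpow_of_exponent_le (by norm_num) (by linarith)
        rwa [Real.rpow_one] at h10
      have h5 := hosc (Real.exp y) (x - Real.exp y) (by linarith) (by linarith) (by linarith)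
      rw [add_sub_cancel] at h5
      rw [E_eq, abs_sub_comm]
      refine h5.trans ?_
      refine (Real.rpow_le_rpow_of_exponent_le h7 (by linarith : 1 / 6 - δ1 ≤ 1 / 6 - δ')).trans ?_
      exact Real.rpow_le_rpow (by linarith) h4 (by linarith)
  have hk1 : ((⌊s * L⌋₊ : ℕ) : ℝ) ≤ s * L := Nat.floor_le (by positivity)
  have hk2 : s * L < (⌊s * L⌋₊ : ℕ) + 1 := Nat.lt_floor_add_one _
  set k := ⌊s * L⌋₊ with hk
  have hw := hC1 L s τ (x ^ (1 / 6 - δ')) k hL1 hk1 hk2 hτ0 (by linarith) b1 hD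
  rw [hsτ] at hw
  have hm := h k s (by linarith)
  rw [Pool.PWF.mean_eq] at hm
  have hJ : (k.factorial : ℝ) * Pool.PWF.Jc (fun y => Pool.PWF.E (Real.exp y)) s k =
      ∫ y in Set.Ioi (0 : ℝ), Pool.PWF.E (Real.exp y) * Real.exp (-s * y) * y ^ k := by
    have hk0 : (k.factorial : ℝ) ≠ 0 := by exact_mod_cast k.factorial_ne_zero
    unfold Pool.PWF.Jc
    rw [integral_div]
    field_simp
  rw [hJ] at hm
  have hexp1 : Real.exp (2 * L - x ^ (e / 3) / (32 * L)) ≤ 1 := by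
    rw [Real.exp_le_one_iff, sub_nonpos, le_div_iff₀ (by positivity)]
    nlinarith
  have hpw := pts_pow hr0 hr1 hL1 b1 hk1
  have hxr : Real.exp (r1 * L) = x ^ r1 := by
    rw [Real.rpow_def_of_pos hx0, mul_comm]
  rw [hxr] at hpw
  have hsA : s ^ A ≤ x ^ (γ / 2) := by
    rw [hs, ← Real.rpow_mul hx0.le]
    exact Real.rpow_le_rpow_of_exponent_le hx1 heA'
  have hprod : x ^ (γ / 2) * x ^ r1 = x ^ (1 / 6 - γ / 2) := by
    rw [← Real.rpow_add hx0]
    congr 1
    rw [hγ]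
    ring
  have hsr : 0 ≤ (s / (s - r1)) ^ (k + 1) := by
    have : 0 < s - r1 := by linarith
    positivity
  have hM : C * s ^ A * (s / (s - r1)) ^ (k + 1) ≤ 3 * |C| * x ^ (1 / 6 - γ / 2) := by
    calc C * s ^ A * (s / (s - r1)) ^ (k + 1)
        ≤ |C| * s ^ A * (s / (s - r1)) ^ (k + 1) := by
          apply mul_le_mul_of_nonneg_right _ hsr
          apply mul_le_mul_of_nonneg_right (le_abs_self C) (by positivity)
      _ ≤ |C| * x ^ (γ / 2) * (3 * x ^ r1) := by
          apply mul_le_mul _ hpw hsr (by positivity)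
          exact mul_le_mul_of_nonneg_left hsA (abs_nonneg _)
      _ = 3 * |C| * x ^ (1 / 6 - γ / 2) := by rw [← hprod]; ring
  have q1 : x ^ (1 / 6 - γ / 2) ≤ x ^ (1 / 6 - min (γ / 2) δ') :=
    Real.rpow_le_rpow_of_exponent_le hx1 (by have := min_le_left (γ / 2) δ'; linarith)
  have q2 : x ^ (1 / 6 - δ') ≤ x ^ (1 / 6 - min (γ / 2) δ') :=
    Real.rpow_le_rpow_of_exponent_le hx1 (by have := min_le_right (γ / 2) δ'; linarith)
  have q3 : (1 : ℝ) ≤ x ^ (1 / 6 - min (γ / 2) δ') :=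
    Real.one_le_rpow hx1 (by have := min_le_right (γ / 2) δ'; linarith)
  have q4 : C1 * Real.exp (2 * L - x ^ (e / 3) / (32 * L)) ≤ |C1| := by
    calc C1 * Real.exp (2 * L - x ^ (e / 3) / (32 * L))
        ≤ |C1| * Real.exp (2 * L - x ^ (e / 3) / (32 * L)) :=
          mul_le_mul_of_nonneg_right (le_abs_self _) (Real.exp_pos _).le
      _ ≤ |C1| * 1 := mul_le_mul_of_nonneg_left hexp1 (abs_nonneg _)
      _ = |C1| := mul_one _
  rw [Real.norm_eq_abs, Real.norm_of_nonneg (by positivity : 0 ≤ x ^ (1 / 6 - min (γ / 2) δ'))]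
  simp only [hexpL] at hw
  have hfin := abs_sub_abs_le_abs_sub (Pool.PWF.E x) (s ^ (k + 1) / (k.factorial : ℝ) *
    ∫ y in Set.Ioi (0 : ℝ), Pool.PWF.E (Real.exp y) * Real.exp (-s * y) * y ^ k)
  rw [abs_sub_comm] at hfin
  set P := x ^ (1 / 6 - min (γ / 2) δ') with hP
  have r1' : 3 * |C| * x ^ (1 / 6 - γ / 2) ≤ 3 * |C| * P :=
    mul_le_mul_of_nonneg_left q1 (by positivity)
  have r2' : |C1| ≤ |C1| * P := by nlinarith [abs_nonneg C1]
  calc |Pool.PWF.E x| ≤ 3 * |C| * P + (P + |C1| * P) := by linarith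
    _ = (3 * |C| + 1 + |C1|) * P := by ring

end Pool.PWQ
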