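import Pool.Agent.Helper76.PWF.Osd
import Pool.Agent.Helper76.PWQ.Kb
import Pool.Agent.Helper76.PWQ.Pts

/-!
# PWQ IFF: the exact characterisation
-/

set_option autoImplicit false

open Complex Finset Filter Topology MeasureTheory

namespace Pool.PWQ

open Pool.PWF

theorem zeroCond_mono {b b' : ℝ} (hb : b ≤ b') (h : ZeroCond b) : ZeroCond b' :=
  fun ρ h1 h2 => h ρ (lt_of_le_of_lt hb h1) h2

/-- the condition on the zeros implies Q1 -/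
theorem q1_of_zeroCond {b : ℝ} (hb : b < 1) (h : ZeroCond b) :
    ∃ δ : ℝ, 0 < δ ∧ E =O[atTop] fun x : ℝ => x ^ (1 / 6 - δ) := by
  set r0 : ℝ := max b 0 / 6 with hr0
  have h0 : 0 ≤ r0 := by rw [hr0]; have := le_max_right b 0; positivity
  have h1 : r0 < 1 / 6 := by
    rw [hr0]
    have : max b 0 < 1 := max_lt hb one_pos
    linarith
  have h2 : ZeroCond (6 * r0) := zeroCond_mono (by rw [hr0]; have := le_max_left b 0; linarith) h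
  set r1 : ℝ := (r0 + 1 / 6) / 2 with hr1
  obtain ⟨C, A, hA, hm⟩ := mu h0 (r1 := r1) (by rw [hr1]; linarith) (by rw [hr1]; linarith) h2
  exact points_of_means (by rw [hr1]; linarith) (by rw [hr1]; linarith) hA hm

theorem zeroCond_of_one_sided (h : ∃ δ C x0 : ℝ, 0 < δ ∧
    ((∀ x : ℝ, x0 ≤ x → E x ≤ C * x ^ (1 / 6 - δ)) ∨
      (∀ x : ℝ, x0 ≤ x → -(C * x ^ (1 / 6 - δ)) ≤ E x))) :
    ∃ b : ℝ, b < 1 ∧ ZeroCond b := by
  obtain ⟨δ, C, x0, hδ, h⟩ := h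
  set r : ℝ := max (1 / 6 - δ) 0 with hr
  have hr0 : 0 ≤ r := le_max_right _ _
  have hr1 : r < 1 / 6 := max_lt (by linarith) (by norm_num)
  obtain ⟨c1, c2, _⟩ := criterion hr0 hr1
  have hle : ∀ x : ℝ, max x0 1 ≤ x → C * x ^ (1 / 6 - δ) ≤ |C| * x ^ r := by
    intro x hx
    have hx1 : 1 ≤ x := (le_max_right _ _).trans hx
    have h2 : x ^ (1 / 6 - δ) ≤ x ^ r := Real.rpow_le_rpow_of_exponent_le hx1 (le_max_left _ _)
    calc C * x ^ (1 / 6 - δ) ≤ |C| * x ^ (1 / 6 - δ) :=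
          mul_le_mul_of_nonneg_right (le_abs_self C) (by positivity)
      _ ≤ _ := mul_le_mul_of_nonneg_left h2 (abs_nonneg C)
  refine ⟨6 * r, by linarith, ?_⟩
  rcases h with h | h
  · exact c1 ⟨|C|, max x0 1, fun x hx => (h x ((le_max_left _ _).trans hx)).trans (hle x hx)⟩
  · refine c2 ⟨|C|, max x0 1, fun x hx => ?_⟩
    have h3 := h x ((le_max_left _ _).trans hx)
    have h4 := hle x hx
    linarith

theorem main : List.TFAE [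
    ∃ δ : ℝ, 0 < δ ∧ E =O[atTop] fun x : ℝ => x ^ (1 / 6 - δ),
    ∃ δ C x0 : ℝ, 0 < δ ∧ ∀ x : ℝ, x0 ≤ x → E x ≤ C * x ^ (1 / 6 - δ),
    ∃ δ C x0 : ℝ, 0 < δ ∧ ∀ x : ℝ, x0 ≤ x → -(C * x ^ (1 / 6 - δ)) ≤ E x,
    ∃ b : ℝ, b < 1 ∧ ZeroCond b] := by
  have hbd : (∃ δ : ℝ, 0 < δ ∧ E =O[atTop] fun x : ℝ => x ^ (1 / 6 - δ)) →
      ∃ δ C x0 : ℝ, 0 < δ ∧ ∀ x : ℝ, x0 ≤ x → |E x| ≤ C * x ^ (1 / 6 - δ) := by
    rintro ⟨δ, hδ, h⟩
    obtain ⟨c, hc⟩ := h.bound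
    obtain ⟨x0, hx0⟩ := Filter.eventually_atTop.mp hc
    refine ⟨δ, c, max x0 0, hδ, fun x hx => ?_⟩
    have h1 := hx0 x ((le_max_left _ _).trans hx)
    have hx1 : 0 ≤ x := (le_max_right _ _).trans hx
    rwa [Real.norm_eq_abs, Real.norm_of_nonneg (by positivity)] at h1
  tfae_have 1 → 2 := by
    intro h
    obtain ⟨δ, C, x0, hδ, h⟩ := hbd h
    exact ⟨δ, C, x0, hδ, fun x hx => (le_abs_self _).trans (h x hx)⟩
  tfae_have 1 → 3 := by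
    intro h
    obtain ⟨δ, C, x0, hδ, h⟩ := hbd h
    exact ⟨δ, C, x0, hδ, fun x hx => by
      have h1 := h x hx
      have h2 := neg_abs_le (E x)
      linarith⟩
  tfae_have 2 → 4 := by
    rintro ⟨δ, C, x0, hδ, h⟩
    exact zeroCond_of_one_sided ⟨δ, C, x0, hδ, Or.inl h⟩
  tfae_have 3 → 4 := by
    rintro ⟨δ, C, x0, hδ, h⟩
    exact zeroCond_of_one_sided ⟨δ, C, x0, hδ, Or.inr h⟩
  tfae_have 4 → 1 := by
    rintro ⟨b, hb, h⟩
    exact q1_of_zeroCond hb h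
  tfae_finish

end Pool.PWQ
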