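import Pool.Agent.Helper76.PWF.Int

/-!
# PWQ MBD: Q1 implies the bound for the mean

`|E t| <= c t^r` for `t >= x0` and `|E t| <= C t^(3/4)` for `t >= 1` (`E_bound`); with
`r = max (1/6 - delta) 0`: `|E t| <= C' x^r` for `1 <= t <= x`, all `x >= 1`, so the integral is at
most `C' x^(1+r)`; `delta' = 1/6 - r > 0`.
-/

set_option autoImplicit false

open Complex Finset Filter Topology MeasureTheory

namespace Pool.PWQ

open Pool.PWF

theorem mean_of_bound (h : ∃ δ : ℝ, 0 < δ ∧ E =O[atTop] fun x : ℝ => x ^ (1 / 6 - δ)) :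
    ∃ δ C x0 : ℝ, 0 < δ ∧ ∀ x : ℝ, x0 ≤ x → |∫ t in (1 : ℝ)..x, E t| ≤ C * x ^ (7 / 6 - δ) := by
  obtain ⟨δ, hδ, hO⟩ := h
  obtain ⟨r, hr⟩ : ∃ r : ℝ, r = max (1 / 6 - δ) 0 := ⟨_, rfl⟩
  have hr0 : 0 ≤ r := by rw [hr]; exact le_max_right _ _
  have hr1 : 1 / 6 - δ ≤ r := by rw [hr]; exact le_max_left _ _
  have hr2 : r < 1 / 6 := by rw [hr]; exact max_lt (by linarith) (by norm_num)
  obtain ⟨c, hc⟩ := hO.bound
  obtain ⟨x1, hx1⟩ := eventually_atTop.1 hc
  obtain ⟨C1, hC1⟩ := E_bound (r := 1) (by norm_num)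
  have hE1 : ∀ t : ℝ, 1 ≤ t → |E t| ≤ |C1| * t := by
    intro t ht
    have h1 := hC1 (Real.log t) (Real.log_nonneg ht)
    rw [one_mul, Real.exp_log (by linarith)] at h1
    exact h1.trans (mul_le_mul_of_nonneg_right (le_abs_self _) (by linarith))
  have hall : ∀ t : ℝ, 1 ≤ t → |E t| ≤ (|c| + |C1| * |x1|) * t ^ r := by
    intro t ht
    have ht0 : 0 < t := by linarith
    have htr : 1 ≤ t ^ r := Real.one_le_rpow ht hr0
    rcases le_total x1 t with h1 | h1
    · have h2 := hx1 t h1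
      rw [Real.norm_eq_abs, Real.norm_of_nonneg (by positivity)] at h2
      calc |E t| ≤ c * t ^ (1 / 6 - δ) := h2
        _ ≤ |c| * t ^ (1 / 6 - δ) := mul_le_mul_of_nonneg_right (le_abs_self _) (by positivity)
        _ ≤ |c| * t ^ r := mul_le_mul_of_nonneg_left
            (Real.rpow_le_rpow_of_exponent_le ht hr1) (abs_nonneg _)
        _ ≤ (|c| + |C1| * |x1|) * t ^ r := by
            apply mul_le_mul_of_nonneg_right _ (by positivity)
            have : 0 ≤ |C1| * |x1| := by positivity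
            linarith
    · calc |E t| ≤ |C1| * t := hE1 t ht
        _ ≤ |C1| * |x1| := mul_le_mul_of_nonneg_left (h1.trans (le_abs_self _)) (abs_nonneg _)
        _ ≤ (|c| + |C1| * |x1|) * 1 := by
            have := abs_nonneg c
            linarith
        _ ≤ (|c| + |C1| * |x1|) * t ^ r := mul_le_mul_of_nonneg_left htr (by positivity)
  refine ⟨1 / 6 - r, |c| + |C1| * |x1|, 1, by linarith, fun x hx => ?_⟩
  have hx0 : 0 < x := by linarith
  have h1 : ‖∫ t in (1 : ℝ)..x, E t‖ ≤ ((|c| + |C1| * |x1|) * x ^ r) * |x - 1| := by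
    apply intervalIntegral.norm_integral_le_of_norm_le_const
    intro t ht
    rw [Set.uIoc_of_le hx] at ht
    rw [Real.norm_eq_abs]
    refine (hall t ht.1.le).trans ?_
    apply mul_le_mul_of_nonneg_left _ (by positivity)
    exact Real.rpow_le_rpow (by linarith [ht.1]) ht.2 hr0
  rw [Real.norm_eq_abs, abs_of_nonneg (by linarith : (0 : ℝ) ≤ x - 1)] at h1
  refine h1.trans ?_
  have h2 : x ^ (7 / 6 - (1 / 6 - r)) = x ^ r * x := by
    rw [show (7 / 6 - (1 / 6 - r) : ℝ) = r + 1 by ring, Real.rpow_add hx0, Real.rpow_one]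
  rw [h2, mul_assoc]
  apply mul_le_mul_of_nonneg_left _ (by positivity)
  apply mul_le_mul_of_nonneg_left _ (by positivity)
  linarith

end Pool.PWQ
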