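import Pool.Agent.Helper76.PWF.Int

/-!
# PWQ MLP: the Laplace transform of `e^(-y) int_1^(e^y) E(t) dt`

Paper proof. `e2 y = int_0^y E(e^u) e^(u-y) du` (substitution `t = e^u`).
Bound: `|E(e^u)| <= C e^(3u/4)` (`Pool.PWF.E_bound (r := 3/4)`). Laplace: Fubini,
`int_(y>0) e^(-(z+1)y) int_(0<u<y) E(e^u) e^u du dy = int_(u>0) E(e^u) e^u (e^(-(z+1)u)/(z+1)) du`
`= (1/(z+1)) int_(u>0) E(e^u) e^(-z u) du = Hf z/(z+1)` (`Pool.PWF.E_laplace`), absolutely convergent
for `Re z > 3/4`. Measurability: the primitive is continuous.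
-/

set_option autoImplicit false

open Complex Finset Filter Topology MeasureTheory

namespace Pool.PWQ

open Pool.PWF

noncomputable def e2 (y : ℝ) : ℝ := Real.exp (-y) * ∫ t in (1 : ℝ)..Real.exp y, E t

theorem Q_mono : Monotone Q := by
  classical
  intro x y hxy
  unfold Q
  apply Nat.cast_le.2
  apply Finset.card_le_card
  apply Finset.filter_subset_filter
  exact Finset.Icc_subset_Icc_right (Nat.floor_le_floor hxy)

theorem E_intervalIntegrable (a b : ℝ) : IntervalIntegrable E volume a b := by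
  have h1 : Continuous (fun x : ℝ => x ^ (1 / 2 : ℝ)) := Real.continuous_rpow_const (by norm_num)
  have h2 : Continuous (fun x : ℝ => x ^ (1 / 3 : ℝ)) := Real.continuous_rpow_const (by norm_num)
  unfold E
  exact ((Q_mono.intervalIntegrable (μ := volume) (a := a) (b := b)).sub
    ((h1.const_mul cA).intervalIntegrable a b)).sub ((h2.const_mul cB).intervalIntegrable a b)

theorem e2_measurable : Measurable e2 := by
  have h : Continuous (fun x : ℝ => ∫ t in (1 : ℝ)..x, E t) :=
    intervalIntegral.continuous_primitive (fun a b => E_intervalIntegrable a b) 1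
  unfold e2
  exact (Real.continuous_exp.comp continuous_neg).measurable.mul
    (h.measurable.comp Real.measurable_exp)

theorem e2_bound : ∃ C : ℝ, ∀ y : ℝ, 0 ≤ y → |e2 y| ≤ C * Real.exp (3 / 4 * y) := by
  obtain ⟨C, hC⟩ := E_bound (r := 3 / 4) (by norm_num)
  refine ⟨C, fun y hy => ?_⟩
  have hC0 : 0 ≤ C := by
    have h := (abs_nonneg _).trans (hC 0 le_rfl)
    simpa using h
  have h1 : (1 : ℝ) ≤ Real.exp y := Real.one_le_exp hy
  have h2 : ‖∫ t in (1 : ℝ)..Real.exp y, E t‖ ≤
      C * Real.exp (3 / 4 * y) * |Real.exp y - 1| := by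
    apply intervalIntegral.norm_integral_le_of_norm_le_const
    intro t ht
    rw [Set.uIoc_of_le h1] at ht
    have ht0 : 0 < t := by linarith [ht.1]
    have h3 := hC (Real.log t) (Real.log_nonneg ht.1.le)
    rw [Real.exp_log ht0] at h3
    rw [Real.norm_eq_abs]
    refine h3.trans (mul_le_mul_of_nonneg_left ?_ hC0)
    apply Real.exp_le_exp.2
    have h4 : Real.log t ≤ y := (Real.log_le_iff_le_exp ht0).2 ht.2
    linarith
  rw [Real.norm_eq_abs, abs_of_nonneg (by linarith : 0 ≤ Real.exp y - 1)] at h2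
  unfold e2
  rw [abs_mul, abs_of_pos (Real.exp_pos _)]
  have h5 : 0 ≤ C * Real.exp (3 / 4 * y) := by positivity
  calc Real.exp (-y) * |∫ t in (1 : ℝ)..Real.exp y, E t|
      ≤ Real.exp (-y) * (C * Real.exp (3 / 4 * y) * (Real.exp y - 1)) :=
        mul_le_mul_of_nonneg_left h2 (Real.exp_pos _).le
    _ ≤ Real.exp (-y) * (C * Real.exp (3 / 4 * y) * Real.exp y) :=
        mul_le_mul_of_nonneg_left (mul_le_mul_of_nonneg_left (by linarith) h5)
          (Real.exp_pos _).le
    _ = C * Real.exp (3 / 4 * y) * (Real.exp (-y) * Real.exp y) := by ring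
    _ = C * Real.exp (3 / 4 * y) := by rw [← Real.exp_add, neg_add_cancel, Real.exp_zero, mul_one]

theorem exp_Ioo (y : ℝ) : Real.exp '' Set.Ioo 0 y = Set.Ioo 1 (Real.exp y) := by
  ext t
  constructor
  · rintro ⟨u, hu, rfl⟩
    exact ⟨Real.one_lt_exp_iff.2 hu.1, Real.exp_lt_exp.2 hu.2⟩
  · intro ht
    have ht0 : 0 < t := by linarith [ht.1]
    exact ⟨Real.log t, ⟨Real.log_pos ht.1, (Real.log_lt_iff_lt_exp ht0).2 ht.2⟩,
      Real.exp_log ht0⟩

theorem prim_eq {y : ℝ} (hy : 0 < y) :
    ∫ t in (1 : ℝ)..Real.exp y, E t = ∫ u in Set.Ioo 0 y, Real.exp u * E (Real.exp u) := by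
  rw [intervalIntegral.integral_of_le (Real.one_le_exp hy.le),
    integral_Ioc_eq_integral_Ioo, ← exp_Ioo y,
    integral_image_eq_integral_abs_deriv_smul measurableSet_Ioo
      (fun x _ => (Real.hasDerivAt_exp x).hasDerivWithinAt) (Real.exp_injective.injOn)]
  simp only [abs_of_pos (Real.exp_pos _), smul_eq_mul]

/-- the kernel -/
noncomputable def kk (z : ℂ) (p : ℝ × ℝ) : ℂ :=
  if p.2 < p.1 then ((Real.exp p.2 * E (Real.exp p.2) : ℝ) : ℂ) * cexp (-(z + 1) * p.1) else 0

theorem kk_measurable (z : ℂ) : Measurable (kk z) := by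
  unfold kk
  apply Measurable.ite (measurableSet_lt measurable_snd measurable_fst)
  · apply Measurable.mul
    · apply Complex.measurable_ofReal.comp
      exact (Real.measurable_exp.comp measurable_snd).mul
        (E_measurable.comp (Real.measurable_exp.comp measurable_snd))
    · exact Complex.measurable_exp.comp
        (measurable_const.mul (Complex.measurable_ofReal.comp measurable_fst))
  · exact measurable_const

theorem kk_slice1 (z : ℂ) {y : ℝ} (hy : 0 < y) :
    ∫ u in Set.Ioi (0 : ℝ), kk z (y, u) = (e2 y : ℂ) * cexp (-z * y) := by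
  have e1 : (fun u => kk z (y, u)) = (Set.Iio y).indicator
      (fun u => ((Real.exp u * E (Real.exp u) : ℝ) : ℂ) * cexp (-(z + 1) * y)) := by
    funext u
    by_cases h : u < y
    · rw [Set.indicator_of_mem (show u ∈ Set.Iio y from h)]
      simp [kk, h]
    · rw [Set.indicator_of_notMem (show u ∉ Set.Iio y from h)]
      simp [kk, h]
  rw [e1, setIntegral_indicator measurableSet_Iio, Set.Ioi_inter_Iio, integral_mul_const,
    integral_complex_ofReal, ← prim_eq hy]
  unfold e2
  push_cast
  have e3 : cexp (-(z + 1) * y) = cexp (-(y : ℂ)) * cexp (-z * y) := by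
    rw [← Complex.exp_add]
    congr 1
    ring
  rw [e3]
  ring

theorem kk_slice2 {z : ℂ} (hz : 0 < z.re + 1) (u : ℝ) (hu : 0 < u) :
    IntegrableOn (fun y => kk z (y, u)) (Set.Ioi 0) ∧
    ∫ y in Set.Ioi (0 : ℝ), kk z (y, u) = (E (Real.exp u) : ℂ) * cexp (-z * u) / (z + 1) := by
  have e1 : (fun y => kk z (y, u)) = (Set.Ioi u).indicator
      (fun y : ℝ => ((Real.exp u * E (Real.exp u) : ℝ) : ℂ) * cexp (-(z + 1) * y)) := by
    funext y
    by_cases h : u < y
    · rw [Set.indicator_of_mem (show y ∈ Set.Ioi u from h)]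
      simp [kk, h]
    · rw [Set.indicator_of_notMem (show y ∉ Set.Ioi u from h)]
      simp [kk, h]
  have hre : (-(z + 1)).re < 0 := by
    simp only [neg_re, add_re, one_re]
    linarith
  have hne : z + 1 ≠ 0 := by
    intro h
    rw [h] at hre
    simp at hre
  have hi := (integrableOn_exp_mul_complex_Ioi hre u).const_mul
    ((Real.exp u * E (Real.exp u) : ℝ) : ℂ)
  have hinter : Set.Ioi (0 : ℝ) ∩ Set.Ioi u = Set.Ioi u := by
    rw [Set.Ioi_inter_Ioi, sup_eq_right.2 hu.le]
  constructor
  · rw [e1]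
    rw [IntegrableOn, integrable_indicator_iff measurableSet_Ioi, IntegrableOn,
      Measure.restrict_restrict measurableSet_Ioi, Set.inter_comm, hinter]
    exact hi
  · rw [e1, setIntegral_indicator measurableSet_Ioi, hinter, integral_const_mul,
      integral_exp_mul_complex_Ioi hre]
    have e3 : cexp (-z * u) = cexp (u : ℂ) * cexp (-(z + 1) * u) := by
      rw [← Complex.exp_add]
      congr 1
      ring
    rw [e3]
    push_cast
    field_simp

theorem kk_norm {z : ℂ} (hz : 0 < z.re + 1) (u : ℝ) (hu : 0 < u) :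
    ∫ y in Set.Ioi (0 : ℝ), ‖kk z (y, u)‖ =
      |E (Real.exp u)| * Real.exp (-z.re * u) / (z.re + 1) := by
  have e1 : (fun y => ‖kk z (y, u)‖) = (Set.Ioi u).indicator
      (fun y : ℝ => (Real.exp u * |E (Real.exp u)|) * Real.exp (-(z.re + 1) * y)) := by
    funext y
    by_cases h : u < y
    · rw [Set.indicator_of_mem (show y ∈ Set.Ioi u from h)]
      simp only [kk, h, if_true]
      rw [norm_mul, Complex.norm_real, Real.norm_eq_abs, abs_mul, abs_of_pos (Real.exp_pos _),
        Complex.norm_exp]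
      congr 2
      simp
    · rw [Set.indicator_of_notMem (show y ∉ Set.Ioi u from h)]
      simp [kk, h]
  have hinter : Set.Ioi (0 : ℝ) ∩ Set.Ioi u = Set.Ioi u := by
    rw [Set.Ioi_inter_Ioi, sup_eq_right.2 hu.le]
  rw [e1, setIntegral_indicator measurableSet_Ioi, hinter, integral_const_mul,
    integral_exp_mul_Ioi (by linarith)]
  have e3 : Real.exp (-z.re * u) = Real.exp u * Real.exp (-(z.re + 1) * u) := by
    rw [← Real.exp_add]
    congr 1
    ring
  rw [e3]
  field_simp

theorem e2_laplace {z : ℂ} (hz : 3 / 4 < z.re) :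
    Hf z / (z + 1) = ∫ y in Set.Ioi (0 : ℝ), (e2 y : ℂ) * Complex.exp (-z * y) := by
  have hz1 : 0 < z.re + 1 := by linarith
  have hint : Integrable (kk z) ((volume.restrict (Set.Ioi (0 : ℝ))).prod
      (volume.restrict (Set.Ioi (0 : ℝ)))) := by
    rw [integrable_prod_iff' (kk_measurable z).aestronglyMeasurable]
    constructor
    · refine (ae_restrict_iff' measurableSet_Ioi).2 (Filter.Eventually.of_forall ?_)
      intro u hu
      exact (kk_slice2 hz1 u hu).1
    · obtain ⟨C, hC⟩ := E_bound (r := 3 / 4) (by norm_num)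
      have hdom : IntegrableOn (fun u : ℝ => C / (z.re + 1) * Real.exp (-(z.re - 3 / 4) * u))
        (Set.Ioi 0) := (integrableOn_exp_mul_Ioi (by linarith) 0).const_mul _
      have hm : Measurable (fun u : ℝ => |E (Real.exp u)| * Real.exp (-z.re * u) / (z.re + 1)) := by
        apply Measurable.div_const
        apply Measurable.mul
        · exact (E_measurable.comp Real.measurable_exp).abs
        · fun_prop
      have hi2 : IntegrableOn
          (fun u : ℝ => |E (Real.exp u)| * Real.exp (-z.re * u) / (z.re + 1)) (Set.Ioi 0) := by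
        refine Integrable.mono' hdom hm.aestronglyMeasurable ?_
        refine (ae_restrict_iff' measurableSet_Ioi).2 (Filter.Eventually.of_forall ?_)
        intro u hu
        have hu0 : 0 < u := hu
        rw [Real.norm_of_nonneg (by positivity)]
        calc |E (Real.exp u)| * Real.exp (-z.re * u) / (z.re + 1)
            ≤ C * Real.exp (3 / 4 * u) * Real.exp (-z.re * u) / (z.re + 1) :=
              div_le_div_of_nonneg_right
                (mul_le_mul_of_nonneg_right (hC u hu0.le) (Real.exp_pos _).le) hz1.le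
          _ = C / (z.re + 1) * Real.exp (-(z.re - 3 / 4) * u) := by
              rw [mul_assoc, ← Real.exp_add]
              have e : 3 / 4 * u + -z.re * u = -(z.re - 3 / 4) * u := by ring
              rw [e]
              ring
      refine hi2.congr ?_
      refine (ae_restrict_iff' measurableSet_Ioi).2 (Filter.Eventually.of_forall ?_)
      intro u hu
      exact (kk_norm hz1 u hu).symm
  have hswap := integral_integral_swap (f := fun y u => kk z (y, u)) hint
  have e1 : ∫ y in Set.Ioi (0 : ℝ), ∫ u in Set.Ioi (0 : ℝ), kk z (y, u) =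
      ∫ y in Set.Ioi (0 : ℝ), (e2 y : ℂ) * Complex.exp (-z * y) :=
    setIntegral_congr_fun measurableSet_Ioi fun y hy => kk_slice1 z hy
  have e2' : ∫ u in Set.Ioi (0 : ℝ), ∫ y in Set.Ioi (0 : ℝ), kk z (y, u) =
      ∫ u in Set.Ioi (0 : ℝ), (E (Real.exp u) : ℂ) * cexp (-z * u) / (z + 1) :=
    setIntegral_congr_fun measurableSet_Ioi fun u hu => (kk_slice2 hz1 u hu).2
  rw [← e1, hswap, e2', integral_div, ← E_laplace (by linarith)]

end Pool.PWQ
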