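import Pool.Agent.Helper76.PWQ.Osg
import Pool.Agent.Helper76.PWQ.Iff
import Pool.Agent.Helper76.PWQ.Mlp
import Pool.Agent.Helper76.PWQ.Mbd

/-!
# PWQ MZC: a one-sided bound for the mean of `E` is equivalent to Q1
-/

set_option autoImplicit false

open Complex Finset Filter Topology MeasureTheory

namespace Pool.PWQ

open Pool.OMG Pool.PWF

/-- the Laplace transform of the mean, continued -/
noncomputable def H2 (z : ℂ) : ℂ := Hf z / (z + 1)

theorem h2_analytic {s : ℝ} (hs : 1 / 2 < s) : AnalyticAt ℂ H2 (s : ℂ) := by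
  have hne : (s : ℂ) + 1 ≠ 0 := by
    have : ((s + 1 : ℝ) : ℂ) ≠ 0 := by
      rw [Complex.ofReal_ne_zero]; linarith
    push_cast at this
    exact this
  exact (hf_analytic hs).div (by fun_prop) hne

theorem h2_coeff (q : ℝ) (h0 : 0 < q) (h2 : q < 2) : ∃ D : ℝ, ∀ k : ℕ,
    |Jc e2 2 k| ≤ D * (1 / q) ^ k := by
  obtain ⟨C, hC⟩ := e2_bound
  obtain ⟨R, hR, hz⟩ := exists_radius
  have hK := kf_diff hR hz
  set f : ℂ → ℂ := fun z => ((-1 / 2 : ℂ) / (z - 0) + Kf z) / (z + 1) with hf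
  have hre : ∀ z ∈ Metric.ball (2 : ℂ) 2, 0 < z.re := by
    intro z hz
    rw [Metric.mem_ball, dist_eq_norm] at hz
    have h3 : |(z - 2).re| ≤ ‖z - 2‖ := Complex.abs_re_le_norm _
    have h4 := neg_abs_le (z - 2).re
    have h5 : (z - 2).re = z.re - 2 := by simp
    rw [h5] at h3 h4
    linarith
  have hfd : DifferentiableOn ℂ f (Metric.ball (2 : ℂ) 2) := by
    refine DifferentiableOn.div (DifferentiableOn.add ?_ (hK.mono
      (Metric.ball_subset_ball hR.le))) (Differentiable.differentiableOn (by fun_prop)) ?_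
    · intro z hz
      have hz1 := hre z hz
      have hne : z - 0 ≠ 0 := by
        rw [sub_zero]; rintro rfl; simp at hz1
      have hd : DifferentiableAt ℂ (fun z : ℂ => z - 0) z := by fun_prop
      exact ((differentiableAt_const _).div hd hne).differentiableWithinAt
    · intro z hz h3
      have hz1 := hre z hz
      have h4 : (z + 1).re = 0 := by rw [h3]; simp
      simp at h4
      linarith
  obtain ⟨D, hD⟩ := T_bound (q := q) hfd h0 h2
  refine ⟨D, fun k => ?_⟩
  have h3 := jc_eq e2_measurable hC (H := H2) (fun z hz => e2_laplace hz) (s0 := 2)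
    (by norm_num) k
  have h4 : ((2 : ℝ) : ℂ) = 2 := by norm_num
  rw [h4] at h3
  have h5 : T (2 : ℂ) H2 = T (2 : ℂ) f := by
    apply T_congr
    have hopen2 : {s : ℂ | 1 / 2 < s.re} ∈ 𝓝 (2 : ℂ) := by
      apply (isOpen_lt continuous_const Complex.continuous_re).mem_nhds
      show 1 / 2 < (2 : ℂ).re
      norm_num
    filter_upwards [hopen2] with z hz
    unfold H2
    rw [hf_eq hz]
  have h6 := hD k
  rw [← h5, ← h3, Complex.norm_real, Real.norm_eq_abs] at h6
  exact h6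

theorem zero_of_mean {t δ C x0 : ℝ} (ht : t = 1 ∨ t = -1) (hδ : 0 < δ)
    (h : ∀ x : ℝ, x0 ≤ x → t * (∫ u in (1 : ℝ)..x, E u) ≤ C * x ^ (7 / 6 - δ)) :
    ∃ b : ℝ, b < 1 ∧ ZeroCond b := by
  obtain ⟨C1, hC1⟩ := e2_bound
  set r : ℝ := max (1 / 6 - δ) 0 with hr
  have hr0 : 0 ≤ r := le_max_right _ _
  have hr1 : r < 1 / 6 := max_lt (by linarith) (by norm_num)
  set r' : ℝ := (r + 1 / 6) / 2 with hr'
  have h1 : r < r' := by rw [hr']; linarith
  have h2 : r' < 1 / 6 := by rw [hr']; linarith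
  have hbd : ∀ y : ℝ, max (Real.log (max x0 1)) 0 ≤ y → t * e2 y ≤ |C| * Real.exp (r * y) := by
    intro y hy
    have hy0 : 0 ≤ y := (le_max_right _ _).trans hy
    have hx : x0 ≤ Real.exp y := by
      have h3 : Real.log (max x0 1) ≤ y := (le_max_left _ _).trans hy
      have h4 : 0 < max x0 1 := lt_of_lt_of_le one_pos (le_max_right _ _)
      rw [Real.log_le_iff_le_exp h4] at h3
      exact (le_max_left _ _).trans h3
    have h3 := h _ hx
    have h4 : t * e2 y = Real.exp (-y) * (t * ∫ u in (1 : ℝ)..Real.exp y, E u) := by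
      unfold e2; ring
    rw [h4]
    calc Real.exp (-y) * (t * ∫ u in (1 : ℝ)..Real.exp y, E u) ≤
        Real.exp (-y) * (C * Real.exp y ^ (7 / 6 - δ)) :=
          mul_le_mul_of_nonneg_left h3 (Real.exp_pos _).le
      _ ≤ Real.exp (-y) * (|C| * Real.exp y ^ (7 / 6 - δ)) := by
          apply mul_le_mul_of_nonneg_left _ (Real.exp_pos _).le
          exact mul_le_mul_of_nonneg_right (le_abs_self C) (by positivity)
      _ = |C| * Real.exp ((1 / 6 - δ) * y) := by
          rw [← Real.exp_mul, mul_left_comm, ← Real.exp_add]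
          congr 2
          ring
      _ ≤ |C| * Real.exp (r * y) := by
          apply mul_le_mul_of_nonneg_left _ (abs_nonneg C)
          apply Real.exp_le_exp.mpr
          exact mul_le_mul_of_nonneg_right (le_max_left _ _) hy0
  refine ⟨6 * r', by linarith, zero_of_ext (r := r') (by linarith) fun s hs => ?_⟩
  obtain ⟨C', hC'⟩ := one_sided_gen e2_measurable hC1 h2_coeff ht hr0 hbd h1 h2 hs
  obtain ⟨F, hF, hFH⟩ := ext_of_coeff (q := s - r') (C := C') (h2_analytic (s := s) (by linarith))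
    (by linarith) (fun k => by
      have h3 := jc_eq e2_measurable hC1 (H := H2) (fun z hz => e2_laplace hz) (s0 := s)
        (by linarith) k
      rw [← h3, Complex.norm_real, Real.norm_eq_abs]
      exact hC' k)
  refine ⟨fun z => (z + 1) * F z, (Differentiable.differentiableOn (by fun_prop)).mul hF, ?_⟩
  have hopen2 : {s : ℂ | 1 / 2 < s.re} ∈ 𝓝 (s : ℂ) := by
    apply (isOpen_lt continuous_const Complex.continuous_re).mem_nhds
    show 1 / 2 < (s : ℂ).re
    rw [Complex.ofReal_re]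
    linarith
  filter_upwards [hFH, hopen2] with z hz1 hz2
  have hz2' : 1 / 2 < z.re := hz2
  have hne : z + 1 ≠ 0 := by
    intro h3
    have h4 : (z + 1).re = 0 := by rw [h3]; simp
    simp at h4
    linarith
  rw [hz1]
  unfold H2
  field_simp

theorem main2 : List.TFAE [
    ∃ δ : ℝ, 0 < δ ∧ E =O[atTop] fun x : ℝ => x ^ (1 / 6 - δ),
    ∃ δ C x0 : ℝ, 0 < δ ∧ ∀ x : ℝ, x0 ≤ x → ∫ t in (1 : ℝ)..x, E t ≤ C * x ^ (7 / 6 - δ),
    ∃ δ C x0 : ℝ, 0 < δ ∧ ∀ x : ℝ, x0 ≤ x → -(C * x ^ (7 / 6 - δ)) ≤ ∫ t in (1 : ℝ)..x, E t,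
    ∃ b : ℝ, b < 1 ∧ ZeroCond b] := by
  tfae_have 1 → 2 := by
    intro h
    obtain ⟨δ, C, x0, hδ, h⟩ := mean_of_bound h
    exact ⟨δ, C, x0, hδ, fun x hx => (le_abs_self _).trans (h x hx)⟩
  tfae_have 1 → 3 := by
    intro h
    obtain ⟨δ, C, x0, hδ, h⟩ := mean_of_bound h
    exact ⟨δ, C, x0, hδ, fun x hx => by
      have h1 := h x hx
      have h2 := neg_abs_le (∫ t in (1 : ℝ)..x, E t)
      linarith⟩
  tfae_have 2 → 4 := by
    rintro ⟨δ, C, x0, hδ, h⟩
    exact zero_of_mean (t := 1) (Or.inl rfl) hδ (fun x hx => by rw [one_mul]; exact h x hx)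
  tfae_have 3 → 4 := by
    rintro ⟨δ, C, x0, hδ, h⟩
    exact zero_of_mean (t := -1) (Or.inr rfl) hδ (fun x hx => by have := h x hx; linarith)
  tfae_have 4 → 1 := by
    rintro ⟨b, hb, h⟩
    exact q1_of_zeroCond hb h
  tfae_finish

end Pool.PWQ
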