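import Pool.Agent.Helper76.PWF.Osd

/-!
# PWQ OSG: Landau's lemma for a one-sided bound, in terms of Taylor coefficients, general form;
# the condition on the zeros from analytic continuation of `Hf`
-/

set_option autoImplicit false

open Complex Finset Filter Topology MeasureTheory

namespace Pool.PWQ

open Pool.OMG Pool.PWF

/-- absolute convergence at `x` bounds the coefficients at `s` -/
theorem jc_of_integrable {e : ℝ → ℝ} {x : ℝ}
    (h : IntegrableOn (fun y : ℝ => e y * Real.exp (-x * y)) (Set.Ioi 0)) {s : ℝ} (hs : x < s) :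
    ∃ C : ℝ, ∀ k : ℕ, |Jc e s k| ≤ C * (1 / (s - x)) ^ k := by
  have hsx : 0 < s - x := by linarith
  refine ⟨∫ y in Set.Ioi (0 : ℝ), |e y * Real.exp (-x * y)|, fun k => ?_⟩
  unfold Jc
  have h1 := norm_integral_le_of_norm_le (h.abs.mul_const ((1 / (s - x)) ^ k))
    (f := fun y : ℝ => e y *
    Real.exp (-s * y) * y ^ k / (k.factorial : ℝ)) (μ := volume.restrict (Set.Ioi 0)) (by
      refine (ae_restrict_iff' measurableSet_Ioi).2 (Filter.Eventually.of_forall ?_)
      intro y hy
      have hy0 : 0 < y := hy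
      have hw := weight_le hsx.le hy0.le k
      have e1 : e y * Real.exp (-s * y) * y ^ k / (k.factorial : ℝ) =
          (e y * Real.exp (-x * y)) * (1 / (s - x)) ^ k *
            (Real.exp (-((s - x) * y)) * ((s - x) * y) ^ k / (k.factorial : ℝ)) := by
        have e1 : Real.exp (-s * y) = Real.exp (-x * y) * Real.exp (-((s - x) * y)) := by
          rw [← Real.exp_add]; congr 1; ring
        have e2 : (1 / (s - x)) ^ k * ((s - x) * y) ^ k = y ^ k := by
          rw [← mul_pow]; congr 1; field_simp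
        rw [e1, ← e2]
        ring
      rw [Real.norm_eq_abs, e1, abs_mul, abs_mul, abs_of_nonneg (show 0 ≤ (1 / (s - x)) ^ k by
        positivity), abs_of_nonneg (show 0 ≤ Real.exp (-((s - x) * y)) * ((s - x) * y) ^ k /
        (k.factorial : ℝ) by positivity)]
      have h2 : 0 ≤ |e y * Real.exp (-x * y)| * (1 / (s - x)) ^ k := by positivity
      calc _ ≤ |e y * Real.exp (-x * y)| * (1 / (s - x)) ^ k * 1 :=
            mul_le_mul_of_nonneg_left hw h2
        _ = _ := mul_one _)
  rw [integral_mul_const] at h1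
  exact h1

/-- a one-sided bound implies bounds for the coefficients at every centre -/
theorem one_sided_gen {e : ℝ → ℝ} (he : Measurable e) {C1 : ℝ}
    (hC1 : ∀ y : ℝ, 0 ≤ y → |e y| ≤ C1 * Real.exp (3 / 4 * y))
    (hJ : ∀ q : ℝ, 0 < q → q < 2 → ∃ D : ℝ, ∀ k : ℕ, |Jc e 2 k| ≤ D * (1 / q) ^ k)
    {t r C y0 : ℝ} (ht : t = 1 ∨ t = -1) (hr0 : 0 ≤ r)
    (h : ∀ y : ℝ, y0 ≤ y → t * e y ≤ C * Real.exp (r * y)) {r' : ℝ} (h1 : r < r')
    (h2 : r' < 1 / 6) {s : ℝ} (hs : 2 ≤ s) :
    ∃ C' : ℝ, ∀ k : ℕ, |Jc e s k| ≤ C' * (1 / (s - r')) ^ k := by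
  have hC1' : 0 ≤ C1 := by
    have h1 := (abs_nonneg _).trans (hC1 0 le_rfl)
    simpa using h1
  have htabs : |t| = 1 := by rcases ht with rfl | rfl <;> simp
  set C2 : ℝ := |C| + C1 * Real.exp (3 / 4 * |y0|) with hC2
  have hC20 : 0 ≤ C2 := by positivity
  -- the nonnegative function
  set a : ℝ → ℝ := fun y => C2 * Real.exp (r * y) - t * e y with ha
  have ham : Measurable a :=
    (measurable_const.mul (Real.measurable_exp.comp (measurable_const.mul measurable_id))).sub
      (measurable_const.mul he)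
  have hnn : ∀ y : ℝ, 0 ≤ y → 0 ≤ a y := by
    intro y hy
    have h3 : 1 ≤ Real.exp (r * y) := Real.one_le_exp (by positivity)
    rcases le_or_gt y0 y with h4 | h4
    · have h5 := h _ h4
      have h6 : C * Real.exp (r * y) ≤ C2 * Real.exp (r * y) := by
        apply mul_le_mul_of_nonneg_right _ (Real.exp_pos _).le
        have := le_abs_self C
        have : 0 ≤ C1 * Real.exp (3 / 4 * |y0|) := by positivity
        linarith
      simp only [ha]
      linarith
    · have h5 := hC1 y hy
      have h6 : Real.exp (3 / 4 * y) ≤ Real.exp (3 / 4 * |y0|) := by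
        apply Real.exp_le_exp.mpr
        have := le_abs_self y0
        linarith
      have h7 : C1 * Real.exp (3 / 4 * y) ≤ C1 * Real.exp (3 / 4 * |y0|) :=
        mul_le_mul_of_nonneg_left h6 hC1'
      have h8 : t * e y ≤ |e y| := by
        refine (le_abs_self _).trans ?_
        rw [abs_mul, htabs, one_mul]
      have h9 : C2 * 1 ≤ C2 * Real.exp (r * y) := mul_le_mul_of_nonneg_left h3 hC20
      have h10 : 0 ≤ |C| := abs_nonneg C
      simp only [ha]
      linarith
  have hab : ∀ y : ℝ, 0 ≤ y → |a y| ≤ (C2 + C1) * Real.exp (3 / 4 * y) := by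
    intro y hy
    have h3 := hC1 y hy
    have h4 : Real.exp (r * y) ≤ Real.exp (3 / 4 * y) :=
      Real.exp_le_exp.mpr (mul_le_mul_of_nonneg_right (by linarith) hy)
    simp only [ha]
    refine (abs_sub _ _).trans ?_
    rw [abs_mul, abs_mul, htabs, one_mul, Real.abs_exp, abs_of_nonneg hC20]
    nlinarith
  -- the coefficients at 2
  set r1 : ℝ := (r + r') / 2 with hr1
  have hr1a : r < r1 := by rw [hr1]; linarith
  have hr1b : r1 < r' := by rw [hr1]; linarith
  obtain ⟨D, hD⟩ := hJ (2 - r1) (by linarith) (by linarith)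
  have hD0 : 0 ≤ D := by
    have h := (abs_nonneg _).trans (hD 0)
    rwa [pow_zero, mul_one] at h
  have hJa : ∀ k : ℕ, |Jc a 2 k| ≤ (C2 + D) * (1 / (2 - r1)) ^ k := by
    intro k
    have hk : (0 : ℝ) < (k.factorial : ℝ) := by exact_mod_cast k.factorial_pos
    have hexp : ∀ y : ℝ, 0 ≤ y → |Real.exp (r * y)| ≤ 1 * Real.exp (r * y) := fun y _ => by
      rw [Real.abs_exp, one_mul]
    have i1 := jc_integrable (a := fun y => Real.exp (r * y))
      (Real.measurable_exp.comp (measurable_const.mul measurable_id)) hexp (s0 := 2)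
      (by linarith) k
    have i2 := jc_integrable he hC1 (s0 := 2) (by norm_num) k
    have e1 : Jc a 2 k = C2 * Jc (fun y => Real.exp (r * y)) 2 k -
        t * Jc e 2 k := by
      unfold Jc
      rw [← integral_const_mul, ← integral_const_mul, ← integral_sub (i1.const_mul _)
        (i2.const_mul _)]
      refine setIntegral_congr_fun measurableSet_Ioi ?_
      intro y _
      simp only [ha]
      ring
    have e2 : Jc (fun y => Real.exp (r * y)) 2 k = 1 / (2 - r) ^ (k + 1) := by
      unfold Jc
      have h3 : ∀ y : ℝ, Real.exp (r * y) * Real.exp (-2 * y) * y ^ k / (k.factorial : ℝ) =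
          (1 / (k.factorial : ℝ)) * (y ^ k * Real.exp (-((2 - r) * y))) := by
        intro y
        have : Real.exp (-((2 - r) * y)) = Real.exp (r * y) * Real.exp (-2 * y) := by
          rw [← Real.exp_add]; congr 1; ring
        rw [this]; ring
      simp only [h3]
      rw [integral_const_mul, exp_int (by linarith)]
      field_simp
    rw [e1, e2]
    refine (abs_sub _ _).trans ?_
    rw [abs_mul, abs_mul, htabs, one_mul, abs_of_nonneg hC20]
    have h2r : 1 ≤ 2 - r := by linarith
    have h3 : |1 / (2 - r) ^ (k + 1)| ≤ (1 / (2 - r)) ^ k := by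
      rw [abs_of_nonneg (by positivity), ← one_div_pow]
      exact pow_le_pow_of_le_one (by positivity) (by rw [div_le_one (by linarith)]; exact h2r)
        (Nat.le_succ k)
    have h4 : (1 / (2 - r)) ^ k ≤ (1 / (2 - r1)) ^ k :=
      pow_le_pow_left₀ (by positivity) (one_div_le_one_div_of_le (by linarith) (by linarith)) k
    have h5 := hD k
    have h6 : C2 * |1 / (2 - r) ^ (k + 1)| ≤ C2 * (1 / (2 - r1)) ^ k :=
      mul_le_mul_of_nonneg_left (h3.trans h4) hC20
    linarith
  -- convergence at `r'`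
  have hsum : Summable fun k : ℕ => Jc a 2 k * (2 - r') ^ k := by
    have h3 : Summable (fun k : ℕ => (C2 + D) * ((2 - r') / (2 - r1)) ^ k) :=
      (summable_geometric_of_lt_one (div_nonneg (by linarith) (by linarith))
        (by rw [div_lt_one (by linarith)]; linarith)).mul_left _
    refine Summable.of_norm_bounded h3 fun k => ?_
    rw [norm_mul, norm_pow, Real.norm_eq_abs, Real.norm_of_nonneg (by linarith)]
    calc |Jc a 2 k| * (2 - r') ^ k ≤ ((C2 + D) * (1 / (2 - r1)) ^ k) * (2 - r') ^ k :=
          mul_le_mul_of_nonneg_right (hJa k) (pow_nonneg (by linarith) k)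
      _ = _ := by rw [mul_assoc, ← mul_pow]; congr 2; ring
  have hint := integrable_of_coeff ham hnn hab (s := 2) (x := r') (by norm_num) (by linarith) hsum
  have hexpint : IntegrableOn (fun y : ℝ => Real.exp (-(r' - r) * y)) (Set.Ioi 0) :=
    integrableOn_exp_mul_Ioi (by linarith) 0
  have hEint : IntegrableOn (fun y : ℝ => e y * Real.exp (-r' * y)) (Set.Ioi 0) := by
    have h3 : IntegrableOn (fun y : ℝ => t * (C2 * Real.exp (-(r' - r) * y) -
        a y * Real.exp (-r' * y))) (Set.Ioi 0) := ((hexpint.const_mul C2).sub hint).const_mul t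
    refine h3.congr_fun ?_ measurableSet_Ioi
    intro y _
    simp only [ha]
    have e1 : Real.exp (-(r' - r) * y) = Real.exp (r * y) * Real.exp (-r' * y) := by
      rw [← Real.exp_add]; congr 1; ring
    rw [e1]
    have e2 : t * t = 1 := by rcases ht with rfl | rfl <;> norm_num
    linear_combination (e y * Real.exp (-r' * y)) * e2
  exact jc_of_integrable hEint (by linarith)

/-- analytic continuation of `Hf` to the discs implies the condition on the zeros -/
theorem zero_of_ext {r : ℝ} (hr0 : 0 ≤ r)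
    (h : ∀ s : ℝ, 2 ≤ s → ∃ F : ℂ → ℂ, DifferentiableOn ℂ F (Metric.ball (s : ℂ) (s - r)) ∧
      F =ᶠ[𝓝 (s : ℂ)] Hf) : ZeroCond (6 * r) := by
  intro ρ hρ1 hρ2
  set z0 : ℂ := ρ / 6 with hz0
  have hρ : 6 * z0 = ρ := by rw [hz0]; ring
  have hx : z0.re = ρ.re / 6 := by rw [← hρ]; simp
  have hxr : r < z0.re := by rw [hx]; linarith
  have hx6 : z0.re < 1 / 6 := by rw [hx]; linarith
  set s : ℝ := z0.im ^ 2 / (z0.re - r) + 2 with hs
  have hd : 0 < z0.re - r := by linarith
  have hs2 : 2 ≤ s := by
    rw [hs]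
    have : 0 ≤ z0.im ^ 2 / (z0.re - r) := by positivity
    linarith
  have hsr : 0 < s - r := by linarith
  have hmem : z0 ∈ Metric.ball (s : ℂ) (s - r) := by
    rw [Metric.mem_ball, dist_eq_norm]
    apply lt_of_pow_lt_pow_left₀ 2 hsr.le
    rw [Complex.sq_norm, Complex.normSq_apply]
    simp only [Complex.sub_re, Complex.sub_im, Complex.ofReal_re, Complex.ofReal_im, sub_zero]
    have e : (s - 2) * (z0.re - r) = z0.im ^ 2 := by
      rw [hs]; field_simp; ring
    nlinarith
  have hopen2 : {s : ℂ | 1 / 2 < s.re} ∈ 𝓝 (s : ℂ) := by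
    apply (isOpen_lt continuous_const Complex.continuous_re).mem_nhds
    show 1 / 2 < (s : ℂ).re
    rw [Complex.ofReal_re]
    linarith
  obtain ⟨F, hF, hFH⟩ := h s hs2
  set G : ℂ → ℂ := fun z => 6 * z * (z - 1 / 2) * (z - 1 / 3) * F z +
    6 * z * (z - 1 / 3) * cA + 6 * z * (z - 1 / 2) * cB with hG
  have hGd : DifferentiableOn ℂ G (Metric.ball (s : ℂ) (s - r)) := by
    refine DifferentiableOn.add (DifferentiableOn.add (DifferentiableOn.mul ?_ hF) ?_) ?_
    · exact Differentiable.differentiableOn (by fun_prop)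
    · exact Differentiable.differentiableOn (by fun_prop)
    · exact Differentiable.differentiableOn (by fun_prop)
  have hid : Set.EqOn (fun z => riemannZeta₁ (6 * z) * G z) Nn (Metric.ball (s : ℂ) (s - r)) := by
    have hf : AnalyticOnNhd ℂ (fun z => riemannZeta₁ (6 * z) * G z)
        (Metric.ball (s : ℂ) (s - r)) :=
      DifferentiableOn.analyticOnNhd (DifferentiableOn.mul
        (Differentiable.differentiableOn (by fun_prop)) hGd) Metric.isOpen_ball
    have hg : AnalyticOnNhd ℂ Nn (Metric.ball (s : ℂ) (s - r)) :=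
      fun z _ => Nn_diff.analyticAt z
    refine hf.eqOn_of_preconnected_of_eventuallyEq hg (convex_ball _ _).isPreconnected
      (Metric.mem_ball_self hsr) ?_
    filter_upwards [hFH, hopen2] with z hz1 hz2
    have hz2' : 1 / 2 < z.re := hz2
    simp only [hG]
    rw [hz1]
    exact hf_mul hz2'
  have h1 : Nn =ᶠ[𝓝 z0] (fun z => riemannZeta₁ (6 * z)) * G := by
    filter_upwards [Metric.isOpen_ball.mem_nhds hmem] with z hz
    exact (hid hz).symm
  have h2 := analyticOrderAt_congr h1
  have hGa : AnalyticAt ℂ G z0 := hGd.analyticAt (Metric.isOpen_ball.mem_nhds hmem)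
  have hDa : AnalyticAt ℂ (fun z => riemannZeta₁ (6 * z)) z0 :=
    Differentiable.analyticAt (by fun_prop) z0
  rw [analyticOrderAt_mul hDa hGa, ord_Nn (by rw [hρ]; exact hρ2),
    ord_D (by rw [hρ]; exact hρ2), hρ] at h2
  rw [h2]
  exact le_self_add

end Pool.PWQ
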